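import Pool.Agent.W5h91.WL.Zero

/-!
Equality of the Waldschmidt constant with Chudnovsky's bound.
-/

set_option autoImplicit false

universe u

namespace Pool.Agent.W5h91.WL

open MvPolynomial Pool.Agent.Chud Pool.Agent.H580C Filter

section

variable {k : Type u} [Field k]

/-- subadditivity -/
theorem aS_add {N : ℕ} (hN : 1 ≤ N) (S : Finset (PP k N)) (m m' : ℕ) :
    aS S (m + m') ≤ aS S m + aS S m' := by
  obtain ⟨⟨F, hF0, hFh, hFv⟩, -⟩ := t_AS k N m S hN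
  obtain ⟨⟨F', hF0', hFh', hFv'⟩, -⟩ := t_AS k N m' S hN
  refine Nat.sInf_le ⟨F * F', mul_ne_zero hF0 hF0', hFh.mul hFh', ?_⟩
  intro p hp
  unfold VanishAt
  rw [pow_add]
  exact Ideal.mul_mem_mul (hFv p hp) (hFv' p hp)

/-- the limit exists -/
theorem exists_limit {N : ℕ} (hN : 1 ≤ N) (S : Finset (PP k N)) :
    ∃ e : ℝ, Tendsto (fun m : ℕ => (aS S m : ℝ) / m) atTop (nhds e) := by
  have h1 : Subadditive (fun m : ℕ => (aS S m : ℝ)) := by
    intro m m'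
    show ((aS S (m + m') : ℕ) : ℝ) ≤ (aS S m : ℝ) + (aS S m' : ℝ)
    exact_mod_cast aS_add hN S m m'
  refine ⟨h1.lim, h1.tendsto_lim ⟨0, ?_⟩⟩
  rintro _ ⟨m, rfl⟩
  positivity

variable [IsAlgClosed k]

/-- Demailly's inequality and the limit -/
theorem aS_bound {N : ℕ} (hN : 1 ≤ N) (S : Finset (PP k N)) (hS : S.Nonempty)
    (h : Tendsto (fun m : ℕ => (aS S m : ℝ) / m) atTop (nhds (((aS S 1 : ℝ) + N - 1) / N)))
    (t : ℕ) (ht : 1 ≤ t) : N * (aS S t + N - 1) ≤ (aS S 1 + N - 1) * (t + N - 1) := by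
  have h1 : Tendsto (fun m : ℕ => (aS S m : ℝ) / m * ((t + N - 1 : ℕ) : ℝ)) atTop
      (nhds (((aS S 1 : ℝ) + N - 1) / N * ((t + N - 1 : ℕ) : ℝ))) := h.mul_const _
  have h2 : ((aS S t + N - 1 : ℕ) : ℝ) ≤ ((aS S 1 : ℝ) + N - 1) / N * ((t + N - 1 : ℕ) : ℝ) := by
    refine ge_of_tendsto h1 ?_
    filter_upwards [eventually_ge_atTop 1] with m hm
    have h3 := demailly hN S hS t m ht
    have hm0 : (0 : ℝ) < m := by exact_mod_cast hm
    rw [div_mul_eq_mul_div, le_div_iff₀ hm0]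
    have h4 : ((m * (aS S t + N - 1) : ℕ) : ℝ) ≤ ((aS S m * (t + N - 1) : ℕ) : ℝ) := by
      exact_mod_cast h3
    rw [Nat.cast_mul, Nat.cast_mul] at h4
    linarith
  have hN0 : (0 : ℝ) < N := by exact_mod_cast hN
  rw [div_mul_eq_mul_div, le_div_iff₀ hN0] at h2
  have h5 : ((aS S 1 : ℝ) + N - 1) = ((aS S 1 + N - 1 : ℕ) : ℝ) := by
    rw [Nat.cast_sub (by omega)]
    push_cast
    ring
  rw [h5] at h2
  have h6 : ((N * (aS S t + N - 1) : ℕ) : ℝ) ≤ (((aS S 1 + N - 1) * (t + N - 1) : ℕ) : ℝ) := by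
    rw [Nat.cast_mul, Nat.cast_mul]
    linarith
  exact_mod_cast h6

/-- forms of bounded defect -/
theorem forms {N : ℕ} (hN : 1 ≤ N) (S : Finset (PP k N)) (hS : S.Nonempty) (ha : 2 ≤ aS S 1)
    (h : Tendsto (fun m : ℕ => (aS S m : ℝ) / m) atTop (nhds (((aS S 1 : ℝ) + N - 1) / N)))
    (q : ℕ) : ∃ Y : MvPolynomial (Fin (N + 1)) k, Y ≠ 0 ∧
      Y.IsHomogeneous ((aS S 1 - 1 + N) * (q - 1) + (aS S 1 - 2)) ∧
      ∀ p ∈ S, Y ∈ mI p.rep ^ (N * (q - 1)) := by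
  have key : ∃ (F : MvPolynomial (Fin (N + 1)) k) (d : ℕ), F ≠ 0 ∧ F.IsHomogeneous d ∧
      d ≤ (aS S 1 - 1 + N) * (q - 1) + (aS S 1 - 2) ∧ ∀ p ∈ S, F ∈ mI p.rep ^ (N * (q - 1)) := by
    rcases Nat.eq_zero_or_pos (q - 1) with h0 | hpos
    · refine ⟨1, 0, one_ne_zero, isHomogeneous_one _ _, Nat.zero_le _, ?_⟩
      intro p _
      rw [h0, mul_zero, pow_zero, Ideal.one_eq_top]
      trivial
    · obtain ⟨⟨F, hF0, hFh, hFv⟩, -⟩ := t_AS k N (N * (q - 1)) S hN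
      refine ⟨F, _, hF0, hFh, ?_, hFv⟩
      have h1 := aS_bound hN S hS h (N * (q - 1)) (Nat.mul_pos hN hpos)
      generalize aS S (N * (q - 1)) = A at h1 ⊢
      generalize aS S 1 = a at h1 ha ⊢
      generalize q - 1 = s at h1 hpos ⊢
      obtain ⟨b, rfl⟩ : ∃ b, a = b + 2 := ⟨a - 2, by omega⟩
      obtain ⟨M, rfl⟩ : ∃ M, N = M + 1 := ⟨N - 1, by omega⟩
      by_contra hcon
      push Not at hcon
      have e1 : A + (M + 1) - 1 = A + M := by omega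
      have e2 : b + 2 + (M + 1) - 1 = b + M + 2 := by omega
      have e3 : (M + 1) * s + (M + 1) - 1 = (M + 1) * s + M := by omega
      have e4 : b + 2 - 1 + (M + 1) = b + M + 2 := by omega
      have e5 : b + 2 - 2 = b := by omega
      rw [e1, e2, e3] at h1
      rw [e4, e5] at hcon
      have h2 : (M + 1) * ((b + M + 2) * s + b + 1 + M) ≤ (M + 1) * (A + M) :=
        Nat.mul_le_mul_left _ (by omega)
      nlinarith
  obtain ⟨F, d, hF0, hFh, hd, hFv⟩ := key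
  refine ⟨F * X 0 ^ ((aS S 1 - 1 + N) * (q - 1) + (aS S 1 - 2) - d),
    mul_ne_zero hF0 (pow_ne_zero _ (X_ne_zero 0)), ?_, ?_⟩
  · have := hFh.mul ((isHomogeneous_X k (0 : Fin (N + 1))).pow
      ((aS S 1 - 1 + N) * (q - 1) + (aS S 1 - 2) - d))
    rwa [one_mul, Nat.add_sub_cancel' hd] at this
  · intro p hp
    exact Ideal.mul_mem_right _ _ (hFv p hp)

/-- the exact form -/
theorem exact_form {N : ℕ} (hN : 1 ≤ N) (S : Finset (PP k N)) (ha : 2 ≤ aS S 1)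
    (h : Tendsto (fun m : ℕ => (aS S m : ℝ) / m) atTop (nhds (((aS S 1 : ℝ) + N - 1) / N))) :
    ∃ F : MvPolynomial (Fin (N + 1)) k, F ≠ 0 ∧ F.IsHomogeneous (aS S 1 - 1 + N) ∧
      ∀ p ∈ S, VanishAt F N p := by
  classical
  obtain ⟨-, hlow⟩ := t_AS k N 1 S hN
  have hS : S.Nonempty := nonempty_of_low (by omega) hlow
  let Z : Finset (Fin (N + 1) → k) := S.image (fun p => p.rep)
  have hZ : (Z : Set (Fin (N + 1) → k)) = reps S := by
    ext v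
    simp only [Z, Finset.coe_image, Set.mem_image, Finset.mem_coe, reps, Set.mem_ofPred_eq]
    exact ⟨fun ⟨p, hp, h⟩ => ⟨p, hp, h.symm⟩, fun ⟨p, hp, h⟩ => ⟨p, hp, h.symm⟩⟩
  rw [← hZ] at hlow
  have hv0 : ∀ v ∈ Z, v ≠ 0 := by
    intro v hv
    obtain ⟨p, hp, rfl⟩ := Finset.mem_image.1 hv
    exact p.rep_nonzero
  have hY : ∀ q : ℕ, 1 ≤ q → ∃ Y : MvPolynomial (Fin (N + 1)) k, Y ≠ 0 ∧
      Y.IsHomogeneous ((aS S 1 - 1 + N) * (q - 1) + (aS S 1 - 2)) ∧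
      ∀ v ∈ Z, Y ∈ mI v ^ (N * (q - 1)) := by
    intro q _
    obtain ⟨Y, hY0, hYh, hYv⟩ := forms hN S hS ha h q
    refine ⟨Y, hY0, hYh, ?_⟩
    intro v hv
    obtain ⟨p, hp, rfl⟩ := Finset.mem_image.1 hv
    exact hYv p hp
  have key : ∃ F : MvPolynomial (Fin (N + 1)) k, F ≠ 0 ∧ F.IsHomogeneous (aS S 1 - 1 + N) ∧
      ∀ v ∈ Z, F ∈ mI v ^ N := by
    rcases CharP.exists k with ⟨p, hp⟩
    rcases CharP.char_is_prime_or_zero k p with hpp | h0
    · have : Fact p.Prime := ⟨hpp⟩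
      exact exact_char p N (aS S 1) hN ha Z hv0 hlow
        (fun e => hY (p ^ e) (Nat.one_le_iff_ne_zero.2 (pow_pos hpp.pos e).ne'))
    · subst h0
      have : CharZero k := CharP.charP_to_charZero k
      exact exact_zero k N (aS S 1) hN ha Z hv0 hlow hY
  obtain ⟨F, hF0, hFh, hFv⟩ := key
  exact ⟨F, hF0, hFh, fun p hp => hFv _ (Finset.mem_image_of_mem _ hp)⟩

/-- **Equality of the Waldschmidt constant with Chudnovsky's bound.** -/
theorem limit_equality {N : ℕ} (hN : 1 ≤ N) (S : Finset (PP k N))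
    (h : Tendsto (fun m : ℕ => (aS S m : ℝ) / m) atTop (nhds (((aS S 1 : ℝ) + N - 1) / N))) :
    InHyperplane S ∨ IsStar S := by
  rcases Nat.lt_or_ge 1 (aS S 1) with ha | ha
  swap
  · exact Or.inl (t_A1 t_AS k N S hN ha)
  obtain ⟨F, hF0, hFh, hFv⟩ := exact_form hN S ha h
  have h1 : aS S N ≤ aS S 1 - 1 + N := Nat.sInf_le ⟨F, hF0, hFh, hFv⟩
  obtain ⟨-, hlow⟩ := t_AS k N 1 S hN
  have hS : S.Nonempty := nonempty_of_low (by omega) hlow
  have h2 := demailly hN S hS 1 N le_rfl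
  have h3 : aS S 1 + N - 1 ≤ aS S N := by
    rw [Nat.add_sub_cancel_left, mul_comm] at h2
    exact Nat.le_of_mul_le_mul_right h2 hN
  have h4 : aS S N = aS S 1 - 1 + N := by omega
  refine equality hN S N hN ?_
  rw [h4, Nat.cast_add, Nat.cast_sub (by omega)]
  push_cast
  ring

end

end Pool.Agent.W5h91.WL
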