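import Pool.Agent.H580C.CH.T_SU
import Pool.Agent.H580C.CH.T_CE
import Pool.Agent.H580C.CH.T_OE

/-!
Splitting off the part with a large exponent of a linear form.
-/

set_option autoImplicit false

universe u

namespace Pool.Agent.W5h91.WL

open MvPolynomial Pool.Agent.Chud Pool.Agent.H580C

section

variable {k : Type u} [Field k]

/-- substitution of a line parallel to the first axis -/
noncomputable def lineHom {n : ℕ} (x : Fin (n + 1) → k) :
    MvPolynomial (Fin (n + 1)) k →ₐ[k] Polynomial k :=
  aeval (fun i => if i = 0 then Polynomial.X else Polynomial.C (x i))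

theorem eval_lineHom {n : ℕ} (x : Fin (n + 1) → k) (s : k) (F : MvPolynomial (Fin (n + 1)) k) :
    Polynomial.eval s (lineHom x F) = eval (Function.update x 0 s) F := by
  have h : ((Polynomial.aeval s : Polynomial k →ₐ[k] k)).comp (lineHom x) =
      (aeval (Function.update x 0 s) : MvPolynomial (Fin (n + 1)) k →ₐ[k] k) := by
    apply MvPolynomial.algHom_ext
    intro i
    by_cases hi : i = 0
    · subst hi; simp [lineHom]
    · simp [lineHom, hi]
  have h2 := DFunLike.congr_fun h F
  simpa [MvPolynomial.coe_aeval_eq_eval, Polynomial.coe_aeval_eq_eval] using h2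

theorem lineHom_monomial {n : ℕ} (x : Fin (n + 1) → k) (m : Fin (n + 1) →₀ ℕ) (c : k) :
    lineHom x (monomial m c) =
      Polynomial.C (c * ∏ i : Fin n, x i.succ ^ m i.succ) * Polynomial.X ^ m 0 := by
  unfold lineHom
  rw [aeval_monomial, Finsupp.prod_fintype _ _ (fun i => pow_zero _), Fin.prod_univ_succ]
  simp only [if_true, Fin.succ_ne_zero, if_false, Polynomial.algebraMap_eq, map_mul, map_prod,
    map_pow]
  ring

theorem coeff_lineHom {n : ℕ} (x : Fin (n + 1) → k) (q : ℕ) (F : MvPolynomial (Fin (n + 1)) k)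
    (hF : ∀ m ∈ F.support, m 0 < q) (j : ℕ) (hj : q ≤ j) : (lineHom x F).coeff j = 0 := by
  rw [F.as_sum, map_sum, Polynomial.finsetSum_coeff]
  refine Finset.sum_eq_zero fun m hm => ?_
  rw [lineHom_monomial, Polynomial.coeff_C_mul, Polynomial.coeff_X_pow, if_neg, mul_zero]
  have := hF m hm
  omega

/-- the part divisible by `x_0 ^ q` of a polynomial vanishing on a line parallel to the first
axis -/
theorem line_split [Infinite k] {n : ℕ} (x : Fin (n + 1) → k) (q : ℕ)
    (F G H : MvPolynomial (Fin (n + 1)) k) (h : F = X 0 ^ q * G + H)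
    (hH : ∀ m ∈ H.support, m 0 < q) (hF : ∀ s, eval (Function.update x 0 s) F = 0) :
    eval x G = 0 := by
  have h1 : lineHom x F = 0 := by
    apply Polynomial.funext
    intro s
    rw [eval_lineHom, hF s, Polynomial.eval_zero]
  have h2 : lineHom x (X 0 : MvPolynomial (Fin (n + 1)) k) = Polynomial.X := by
    simp [lineHom]
  rw [h, map_add, map_mul, map_pow, h2] at h1
  have h3 : lineHom x G = 0 := by
    ext j
    have h4 := congrArg (fun P => Polynomial.coeff P (j + q)) h1
    simp only [Polynomial.coeff_add, Polynomial.coeff_zero] at h4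
    rw [coeff_lineHom x q H hH (j + q) (by omega), add_zero, Polynomial.coeff_X_pow_mul] at h4
    rw [h4, Polynomial.coeff_zero]
  have h5 := eval_lineHom x (x 0) G
  rw [h3, Polynomial.eval_zero, Function.update_eq_self] at h5
  exact h5.symm

/-- **Splitting.** -/
theorem split [Infinite k] (n q t : ℕ) (w : Fin (n + 1) → k) (hw : w ≠ 0)
    (f : MvPolynomial (Fin (n + 1)) k) (hf : f.IsHomogeneous (q * (t + 1))) :
    ∃ y f₁ f₂ : MvPolynomial (Fin (n + 1)) k, y.IsHomogeneous 1 ∧ f = y ^ q * f₁ + f₂ ∧
      f₁.IsHomogeneous (q * t) ∧ f₂.IsHomogeneous (q * (t + 1)) ∧ f₂ ∈ mI w ^ (q * t + 1) ∧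
      ∀ U : Submodule k (Fin (n + 1) → k), w ∈ U → (∀ x ∈ U, eval x f = 0) →
        ∀ x ∈ U, eval x f₁ = 0 := by
  classical
  obtain ⟨e, he⟩ := t_CE k n w hw
  obtain ⟨-, hom, ev, -, -, inv⟩ := t_SU k (n + 1) e
  obtain ⟨-, hom', ev', ord', -, inv'⟩ := t_SU k (n + 1) e.symm
  set F := sub e f with hFdef
  have hF : F.IsHomogeneous (q * (t + 1)) := hom f _ hf
  set s : Fin (n + 1) →₀ ℕ := Finsupp.single 0 q with hs
  set G := F.divMonomial s with hG
  set H := F.modMonomial s with hH
  have hsplit : F = X 0 ^ q * G + H := by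
    rw [X_pow_eq_monomial]
    exact (divMonomial_add_modMonomial F s).symm
  have hHs : ∀ m ∈ H.support, m 0 < q := by
    intro m hm
    by_contra hcon
    push Not at hcon
    apply mem_support_iff.1 hm
    apply coeff_modMonomial_of_le
    rw [hs, Finsupp.single_le_iff]
    exact hcon
  have hHh : H.IsHomogeneous (q * (t + 1)) := by
    intro m hm
    apply hF
    have h1 : ¬ s ≤ m := by
      intro h
      exact hm (coeff_modMonomial_of_le F h)
    rw [coeff_modMonomial_of_not_le F h1] at hm
    exact hm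
  have hGh : G.IsHomogeneous (q * t) := by
    intro m hm
    rw [hG, coeff_divMonomial] at hm
    have h1 := hF hm
    rw [map_add, hs] at h1
    have h2 : Finsupp.weight 1 (Finsupp.single (0 : Fin (n + 1)) q) = q := by
      simp [Finsupp.weight_single]
    rw [h2] at h1
    have h3 : q * (t + 1) = q * t + q := by ring
    omega
  have hHm : H ∈ mI (e0 k n) ^ (q * t + 1) := by
    rw [t_OE k n _ _ H hHh]
    intro c hc
    have h1 := hHs c hc
    have h3 : q * (t + 1) = q * t + q := by ring
    omega
  have hX : (X 0 : MvPolynomial (Fin (n + 1)) k).IsHomogeneous 1 := isHomogeneous_X k 0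
  refine ⟨sub e.symm (X 0), sub e.symm G, sub e.symm H, hom' _ _ hX, ?_, hom' _ _ hGh,
    hom' _ _ hHh, ?_, ?_⟩
  · rw [← map_pow, ← map_mul, ← map_add, ← hsplit, hFdef, inv]
  · rw [ord', ← he, LinearEquiv.symm_apply_apply]
    exact hHm
  · intro U hwU hU x hx
    rw [ev']
    apply line_split (e.symm x) q F G H hsplit hHs
    intro a
    rw [hFdef, ev]
    apply hU
    have h1 : Function.update (e.symm x) 0 a = e.symm x + (a - e.symm x 0) • e0 k n := by
      ext i
      by_cases hi : i = 0
      · subst hi; simp [e0]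
      · simp [hi, e0]
    rw [h1, map_add, map_smul, he, LinearEquiv.apply_symm_apply]
    exact U.add_mem hx (U.smul_mem _ hwU)

end

end Pool.Agent.W5h91.WL
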