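import Pool.Agent.H580C.CH.T_PZ
import Pool.Agent.H580C.CH.T_RT
import Pool.Agent.H580C.CH.T_LS
import Pool.Agent.H580C.CH.T_DL
import Pool.Agent.H580C.CH.T_TS

/-!
Rigidity: forms of degree `a - 1 + t` with high orders at all the points.
-/

set_option autoImplicit false

universe u

namespace Pool.Agent.W5h91.WL

open MvPolynomial Pool.Agent.Chud Pool.Agent.H580C

section

variable {k : Type u} [Field k]

theorem mem_mI_one {σ : Type*} (v : σ → k) (F : MvPolynomial σ k) :
    F ∈ mI v ^ 1 ↔ eval v F = 0 := by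
  rw [pow_one]
  unfold mI
  rw [RingHom.mem_ker]

theorem mem_mI_mono {σ : Type*} (v : σ → k) {F : MvPolynomial σ k} {m m' : ℕ} (h : F ∈ mI v ^ m)
    (hm : m' ≤ m) : F ∈ mI v ^ m' := Ideal.pow_le_pow_right hm h

/-- a form all of whose partial derivatives vanish is a `p`-th power -/
theorem root_of_pderiv [IsAlgClosed k] (p n d : ℕ) [Fact p.Prime] [CharP k p]
    (F : MvPolynomial (Fin (n + 1)) k) (hF0 : F ≠ 0) (hF : F.IsHomogeneous d)
    (h : ∀ i, pderiv i F = 0) :
    ∃ (G : MvPolynomial (Fin (n + 1)) k) (d' : ℕ), F = G ^ p ∧ G ≠ 0 ∧ G.IsHomogeneous d' ∧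
      d = p * d' := by
  have hp : p.Prime := Fact.out
  obtain ⟨G, hG⟩ := t_PZ t_RT k p n d F hF0 hF (by
    intro l hl _
    obtain ⟨v, hv⟩ : ∃ v, eval v l ≠ 0 := by
      by_contra hcon
      push Not at hcon
      have : Infinite k := IsAlgClosed.instInfinite
      exact hl (MvPolynomial.funext (fun v => by rw [hcon v, map_zero]))
    refine ⟨v, hv, ?_⟩
    rw [PZ_coeff_one]
    simp [h])
  have hG0 : G ≠ 0 := by
    rintro rfl
    rw [zero_pow hp.ne_zero] at hG
    exact hF0 hG
  have hGh : G.IsHomogeneous G.totalDegree :=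
    homog_of_dvd hF hF0 ⟨G ^ (p - 1), by rw [← pow_succ', Nat.sub_add_cancel hp.one_le]; exact hG⟩
  refine ⟨G, G.totalDegree, hG, hG0, hGh, ?_⟩
  have h1 : (G ^ p).IsHomogeneous (G.totalDegree * p) := hGh.pow p
  rw [← hG] at h1
  have := h1.inj_right hF hF0
  rw [mul_comm]
  exact this.symm

theorem pderiv_swap {σ : Type*} (i j : σ) (F : MvPolynomial σ k) :
    pderiv i (pderiv j F) = pderiv j (pderiv i F) := by
  classical
  have h : (⁅(pderiv i : Derivation k (MvPolynomial σ k) (MvPolynomial σ k)), pderiv j⁆ :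
      Derivation k (MvPolynomial σ k) (MvPolynomial σ k)) = 0 := by
    apply MvPolynomial.derivation_ext
    intro l
    rw [Derivation.commutator_apply, pderiv_X, pderiv_X]
    by_cases h1 : l = j <;> by_cases h2 : l = i <;>
      simp [Pi.single_apply, h1, h2, apply_ite]
  have h2 := congrArg (fun D => D F) h
  simp only [Derivation.commutator_apply, Derivation.coe_zero, Pi.zero_apply] at h2
  exact sub_eq_zero.1 h2

theorem rigid_one [IsAlgClosed k] (p n a : ℕ) [Fact p.Prime] [CharP k p]
    (v : Fin (n + 1) → k) (Z : Set (Fin (n + 1) → k)) (ha : 2 ≤ a) (hlow : LowT (insert v Z) 1 a)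
    (G : MvPolynomial (Fin (n + 1)) k) (hG : G.IsHomogeneous a) (hZ : ∀ w ∈ Z, G ∈ mI w ^ 2)
    (hv : G ∈ mI v ^ 1) : G = 0 := by
  by_contra hG0
  have hp : p.Prime := Fact.out
  have hp2 := hp.two_le
  have hGZ : ∀ w ∈ Z, eval w G = 0 := fun w hw =>
    (mem_mI_one w G).1 (mem_mI_mono w (hZ w hw) (by omega))
  have hGv : eval v G = 0 := (mem_mI_one v G).1 hv
  have hdZ : ∀ i, ∀ w ∈ Z, eval w (pderiv i G) = 0 := fun i w hw =>
    (mem_mI_one w _).1 (deriv_mem w (pderiv i) 1 G (hZ w hw))
  have hdh : ∀ i, (pderiv i G).IsHomogeneous (a - 1) := fun i => hG.pderiv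
  -- forms of degree less than `a` vanishing at all the points are zero
  have hzero : ∀ (F : MvPolynomial (Fin (n + 1)) k) (d : ℕ), F.IsHomogeneous d → d < a →
      (∀ w ∈ Z, eval w F = 0) → eval v F = 0 → F = 0 := by
    intro F d hF hd h1 h2
    by_contra hF0
    have := hlow F d hF0 hF (by
      rintro w (rfl | hw)
      · exact (mem_mI_one _ _).2 h2
      · exact (mem_mI_one _ _).2 (h1 w hw))
    omega
  by_cases hc : ∀ i, eval v (pderiv i G) = 0
  · -- all the derivatives vanish
    have h1 : ∀ i, pderiv i G = 0 := fun i =>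
      hzero _ (a - 1) (hdh i) (by omega) (hdZ i) (hc i)
    obtain ⟨H, d', hH, hH0, hHh, hd⟩ := root_of_pderiv p n a G hG0 hG h1
    apply hH0
    refine hzero H d' hHh ?_ ?_ ?_
    · rw [hd]
      have : 1 ≤ d' := by
        rcases Nat.eq_zero_or_pos d' with h | h
        · rw [h] at hd; omega
        · exact h
      nlinarith
    · intro w hw
      have := hGZ w hw
      rw [hH, map_pow] at this
      exact pow_eq_zero_iff (hp.ne_zero) |>.1 this
    · rw [hH, map_pow] at hGv
      exact pow_eq_zero_iff (hp.ne_zero) |>.1 hGv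
  · push Not at hc
    obtain ⟨j, hj⟩ := hc
    set c : Fin (n + 1) → k := fun i => eval v (pderiv i G) with hcdef
    have hcj : c j ≠ 0 := hj
    set h := pderiv j G with hh
    -- the derivatives are proportional
    have hprop : ∀ i, C (c j) * pderiv i G = C (c i) * h := by
      intro i
      rw [← sub_eq_zero]
      refine hzero _ (a - 1) ?_ (by omega) ?_ ?_
      · have e1 := (isHomogeneous_C (Fin (n + 1)) (c j)).mul (hdh i)
        have e2 := (isHomogeneous_C (Fin (n + 1)) (c i)).mul (hdh j)
        rw [zero_add] at e1 e2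
        exact e1.sub e2
      · intro w hw
        rw [map_sub, map_mul, map_mul, hdZ i w hw, hdZ j w hw]
        simp
      · rw [map_sub, map_mul, map_mul, eval_C, eval_C]
        change c j * c i - c i * c j = 0
        ring
    have hprop2 : ∀ l, C (c j) * pderiv l h = C (c l) * pderiv j h := by
      intro l
      have h1 := congrArg (pderiv j) (hprop l)
      rw [pderiv_C_mul, pderiv_C_mul] at h1
      rw [← h1, hh, pderiv_swap l j]
    set κ : MvPolynomial (Fin (n + 1)) k := ∑ i, X i * C (c i) with hκ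
    have hE1 : κ * h = C (c j) * (a • G) := by
      rw [← hG.sum_X_mul_pderiv, Finset.mul_sum, hκ, Finset.sum_mul]
      refine Finset.sum_congr rfl fun i _ => ?_
      rw [mul_assoc, ← hprop i]
      ring
    have hE2 : κ * pderiv j h = C (c j) * ((a - 1) • h) := by
      rw [← (hdh j).sum_X_mul_pderiv, Finset.mul_sum, hκ, Finset.sum_mul]
      refine Finset.sum_congr rfl fun i _ => ?_
      rw [mul_assoc, ← hprop2 i]
      ring
    have hκv : eval v κ = 0 := by
      have h1 := congrArg (eval v) hG.sum_X_mul_pderiv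
      rw [map_sum] at h1
      rw [hκ, map_sum]
      have h2 : eval v (a • G) = 0 := by
        rw [nsmul_eq_mul, map_mul, hGv, mul_zero]
      rw [← h1.trans h2]
      refine Finset.sum_congr rfl fun i _ => ?_
      rw [map_mul, map_mul, eval_C]
    have hcast : ((a - 1 : ℕ) : k) = 0 := by
      have h1 := congrArg (eval v) hE2
      rw [map_mul, hκv, zero_mul, map_mul, eval_C, nsmul_eq_mul, map_mul, map_natCast] at h1
      change 0 = c j * (((a - 1 : ℕ) : k) * c j) at h1
      rcases mul_eq_zero.1 h1.symm with h2 | h2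
      · exact absurd h2 hcj
      · rcases mul_eq_zero.1 h2 with h3 | h3
        · exact h3
        · exact absurd h3 hcj
    have hκ0 : κ ≠ 0 := by
      intro h0
      apply hcj
      have h1 := congrArg (coeff (Finsupp.single j 1)) h0
      rw [hκ, coeff_sum, coeff_zero] at h1
      rw [Finset.sum_eq_single j] at h1
      · rw [mul_comm, coeff_C_mul, coeff_X, if_pos rfl, mul_one] at h1
        exact h1
      · intro i _ hi
        rw [mul_comm, coeff_C_mul, coeff_X, if_neg, mul_zero]
        intro h2
        exact hi (Finsupp.single_left_injective one_ne_zero h2)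
      · intro h2
        exact absurd (Finset.mem_univ j) h2
    have hκh : κ.IsHomogeneous 1 := by
      rw [hκ]
      apply IsHomogeneous.sum
      intro i _
      have := (isHomogeneous_X k i).mul (isHomogeneous_C (Fin (n + 1)) (c i))
      simpa using this
    have hjh : pderiv j h = 0 := by
      have h1 : κ * pderiv j h = 0 := by
        rw [hE2, nsmul_eq_mul]
        have : ((a - 1 : ℕ) : MvPolynomial (Fin (n + 1)) k) = C ((a - 1 : ℕ) : k) := by simp
        rw [this, hcast, C_0, zero_mul, mul_zero]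
      rcases mul_eq_zero.1 h1 with h2 | h2
      · exact absurd h2 hκ0
      · exact h2
    have hlh : ∀ l, pderiv l h = 0 := by
      intro l
      have h1 := hprop2 l
      rw [hjh, mul_zero] at h1
      rcases mul_eq_zero.1 h1 with h2 | h2
      · exact absurd ((C_eq_zero).1 h2) hcj
      · exact h2
    have hh0 : h ≠ 0 := by
      intro h0
      apply hcj
      change eval v h = 0
      rw [h0, map_zero]
    obtain ⟨H, d', hH, hH0, hHh, hd⟩ := root_of_pderiv p n (a - 1) h hh0 (hdh j) hlh
    have hd1 : 1 ≤ d' := by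
      rcases Nat.eq_zero_or_pos d' with h | h
      · rw [h] at hd; omega
      · exact h
    have hfin := hzero (κ * H) (1 + d') (hκh.mul hHh) (by
        have : 2 * d' ≤ p * d' := Nat.mul_le_mul_right _ hp2
        omega) (by
        intro w hw
        have h1 := hdZ j w hw
        change eval w h = 0 at h1
        rw [hH, map_pow] at h1
        rw [map_mul, pow_eq_zero_iff (hp.ne_zero) |>.1 h1, mul_zero]) (by
        rw [map_mul, hκv, zero_mul])
    rcases mul_eq_zero.1 hfin with h2 | h2
    · exact hκ0 h2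
    · exact hH0 h2

/-- **Rigidity.** -/
theorem rigid [IsAlgClosed k] (p n a : ℕ) [Fact p.Prime] [CharP k p]
    (v : Fin (n + 1) → k) (Z : Set (Fin (n + 1) → k)) (ha : 2 ≤ a) (hlow : LowT (insert v Z) 1 a) :
    ∀ t, 1 ≤ t → ∀ G : MvPolynomial (Fin (n + 1)) k, G.IsHomogeneous (a - 1 + t) →
      (∀ w ∈ Z, G ∈ mI w ^ (t + 1)) → G ∈ mI v ^ t → G = 0 := by
  intro t ht
  have hp : p.Prime := Fact.out
  have hp2 := hp.two_le
  induction t, ht using Nat.le_induction with
  | base =>
    intro G hG hZ hv
    rw [Nat.sub_add_cancel (by omega)] at hG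
    exact rigid_one p n a v Z ha hlow G hG hZ hv
  | succ t ht ih =>
    intro G hG hZ hv
    by_contra hG0
    have h1 : ∀ i, pderiv i G = 0 := by
      intro i
      refine ih (pderiv i G) ?_ ?_ ?_
      · have := hG.pderiv (i := i)
        rwa [← Nat.add_assoc, Nat.add_sub_cancel] at this
      · intro w hw
        exact deriv_mem w (pderiv i) _ G (hZ w hw)
      · exact deriv_mem v (pderiv i) _ G hv
    obtain ⟨H, d', hH, hH0, hHh, hd⟩ := root_of_pderiv p n _ G hG0 hG h1
    -- the order of `H`
    set s := (t + p) / p with hs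
    have hs1 : t + 1 ≤ p * s := by
      have h2 := Nat.div_add_mod (t + p) p
      have h3 := Nat.mod_lt (t + p) hp.pos
      rw [← hs] at h2
      omega
    have hs2 : ∀ m, t + 1 ≤ p * m → s ≤ m := by
      intro m hm
      have : s < m + 1 := by
        rw [hs, Nat.div_lt_iff_lt_mul hp.pos]
        nlinarith
      omega
    have hs0 : 1 ≤ s := by
      rcases Nat.eq_zero_or_pos s with h | h
      · rw [h] at hs1; omega
      · exact h
    clear_value s
    have hord : ∀ w, G ∈ mI w ^ (t + 1) → H ∈ mI w ^ s := by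
      intro w hw
      rw [mem_mI_pow_iff w hH0]
      rw [mem_mI_pow_iff w hG0, hH, TS_mu_pow w hH0] at hw
      exact hs2 _ hw
    have h5 := t_LS t_DL k (n + 1) 1 a (insert v Z) (Set.insert_nonempty _ _) le_rfl hlow (s - 1)
      H d' hH0 hHh (by
        have e : 1 + (s - 1) = s := by omega
        rw [e]
        rintro w (rfl | hw)
        · exact hord _ hv
        · exact hord _ (mem_mI_mono w (hZ w hw) (by omega)))
    -- `a - 1 + (t + 1) = p d'`, `a + (s - 1) ≤ d'`
    obtain ⟨b, rfl⟩ : ∃ b, a = b + 2 := ⟨a - 2, by omega⟩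
    have h6 : p * (b + 2 + (s - 1)) ≤ p * d' := Nat.mul_le_mul_left _ h5
    have h7 : p * (b + 2 + (s - 1)) = p * (b + 1) + p * s := by
      have : b + 2 + (s - 1) = b + 1 + s := by omega
      rw [this]
      ring
    have h8 : 2 * (b + 1) ≤ p * (b + 1) := Nat.mul_le_mul_right _ hp2
    omega

end

end Pool.Agent.W5h91.WL
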