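import Pool.Agent.W5h91.WL.Top
import Pool.Agent.W5h91.WL.Rig
import Pool.Agent.W5h91.WL.Dec

/-!
The operator `f ↦ B f`, the top derivative of `f A`, for polynomials `f` in `x_1`, …, `x_n`.
-/

set_option autoImplicit false

universe u

namespace Pool.Agent.W5h91.WL

open MvPolynomial Pool.Agent.Chud Pool.Agent.H580C

section

variable {k : Type u} [Field k]

/-- the data -/
structure Dat (k : Type u) [Field k] (p e m a : ℕ) (Z : Finset (Fin (m + 1 + 1) → k))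
    (A : MvPolynomial (Fin (m + 1 + 1)) k) : Prop where
  ha : 2 ≤ a
  low : LowT (insert (e0 k (m + 1)) (Z : Set (Fin (m + 1 + 1) → k))) 1 a
  A0 : A ≠ 0
  Ah : A.IsHomogeneous ((a - 1) * p ^ e + (m + 1) * (p ^ e - 1))
  AZ : ∀ w ∈ Z, A ∈ mI w ^ ((m + 1) * (p ^ e - 1) + 1)
  Ae : A ∈ mI (e0 k (m + 1)) ^ ((m + 1) * (p ^ e - 1))
  tl : ∀ w ∈ Z, Fin.tail w ≠ 0

/-- polynomials in `x_1`, …, `x_n` -/
noncomputable abbrev emb {m : ℕ} : MvPolynomial (Fin (m + 1)) k →ₐ[k]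
    MvPolynomial (Fin (m + 1 + 1)) k := rename Fin.succ

/-- the operator -/
noncomputable def B (p e : ℕ) {m : ℕ} (A : MvPolynomial (Fin (m + 1 + 1)) k)
    (f : MvPolynomial (Fin (m + 1)) k) : MvPolynomial (Fin (m + 1 + 1)) k :=
  hd (topI (m + 1) (p ^ e - 1)) (emb f * A)

section linear

variable (p e : ℕ) {m : ℕ} (A : MvPolynomial (Fin (m + 1 + 1)) k)

theorem B_add (f g : MvPolynomial (Fin (m + 1)) k) : B p e A (f + g) = B p e A f + B p e A g := by
  unfold B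
  rw [map_add, add_mul, map_add]

theorem B_sub (f g : MvPolynomial (Fin (m + 1)) k) : B p e A (f - g) = B p e A f - B p e A g := by
  unfold B
  rw [map_sub, sub_mul, map_sub]

theorem B_zero : B p e A 0 = 0 := by
  unfold B
  rw [map_zero, zero_mul, map_zero]

theorem B_C_mul (c : k) (f : MvPolynomial (Fin (m + 1)) k) :
    B p e A (C c * f) = C c * B p e A f := by
  unfold B
  rw [show emb (C c * f) = C c * emb f by rw [map_mul, algHom_C, MvPolynomial.algebraMap_eq],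
    mul_assoc, ← smul_eq_C_mul, map_smul, smul_eq_C_mul]

theorem B_sum {ι : Type*} (s : Finset ι) (f : ι → MvPolynomial (Fin (m + 1)) k) :
    B p e A (∑ i ∈ s, f i) = ∑ i ∈ s, B p e A (f i) := by
  unfold B
  rw [map_sum, Finset.sum_mul, map_sum]

theorem B_pow_mul [Fact p.Prime] [CharP k p] (y f : MvPolynomial (Fin (m + 1)) k) :
    B p e A (y ^ (p ^ e) * f) = emb y ^ (p ^ e) * B p e A f := by
  unfold B
  rw [show emb (y ^ (p ^ e) * f) = emb y ^ (p ^ e) * emb f by rw [map_mul, map_pow],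
    mul_assoc, t_HP k p e _ (topI (m + 1) (p ^ e - 1)) _ _
    (topI_lt _ _ (pow_pos (Fact.out : p.Prime).pos e))]

end linear

theorem emb_dvd (q : ℕ) {m : ℕ} (f : MvPolynomial (Fin (m + 1)) k) :
    DvdE q {0} (emb f : MvPolynomial (Fin (m + 1 + 1)) k) := by
  classical
  intro c hc i hi
  rw [Set.mem_singleton_iff] at hi
  subst hi
  obtain ⟨d, -, rfl⟩ := Finset.mem_image.1
    ((support_rename_of_injective (Fin.succ_injective (m + 1)) (p := f)) ▸ hc)
  have : (Finsupp.mapDomain Fin.succ d : Fin (m + 1 + 1) →₀ ℕ) 0 = 0 := by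
    apply Finsupp.mapDomain_of_notMem_range
    rintro ⟨x, hx⟩
    exact Fin.succ_ne_zero x hx
  rw [this]
  exact dvd_zero q

theorem emb_homog {m d : ℕ} {f : MvPolynomial (Fin (m + 1)) k} (hf : f.IsHomogeneous d) :
    (emb f : MvPolynomial (Fin (m + 1 + 1)) k).IsHomogeneous d :=
  hf.rename_isHomogeneous

theorem emb_mem_tail {m d : ℕ} {f : MvPolynomial (Fin (m + 1)) k} (w : Fin (m + 1 + 1) → k)
    (hf : f ∈ mI (Fin.tail w) ^ d) :
    (emb f : MvPolynomial (Fin (m + 1 + 1)) k) ∈ mI w ^ d := by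
  have h1 : Ideal.map (emb (k := k) (m := m)) (mI (Fin.tail w)) ≤ mI w := by
    rw [Ideal.map_le_iff_le_comap]
    intro G hG
    rw [Ideal.mem_comap, mI, RingHom.mem_ker]
    change eval w (rename Fin.succ G) = 0
    rw [eval_rename]
    exact hG
  have h2 : Ideal.map (emb (k := k) (m := m)) (mI (Fin.tail w) ^ d) ≤ mI w ^ d := by
    rw [Ideal.map_pow]
    exact Ideal.pow_right_mono h1 d
  exact h2 (Ideal.mem_map_of_mem _ hf)

theorem emb_mem_e0 {m d : ℕ} {f : MvPolynomial (Fin (m + 1)) k} (hf : f.IsHomogeneous d) :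
    (emb f : MvPolynomial (Fin (m + 1 + 1)) k) ∈ mI (e0 k (m + 1)) ^ d := by
  rw [t_OE k (m + 1) d d _ (emb_homog hf)]
  intro c hc
  obtain ⟨j, hj⟩ := emb_dvd 0 f c hc 0 rfl
  rw [hj]
  omega

theorem mem_of_pow_mem {N : ℕ} (w : Fin N → k) (q r : ℕ) (X : MvPolynomial (Fin N) k)
    (hX : X ≠ 0) (h : X ^ q ∈ mI w ^ (q * r + 1)) : X ∈ mI w ^ (r + 1) := by
  rw [mem_mI_pow_iff w hX]
  rw [mem_mI_pow_iff w (pow_ne_zero _ hX), TS_mu_pow w hX] at h
  by_contra hcon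
  push Not at hcon
  have h1 : q * mu w X ≤ q * r := Nat.mul_le_mul_left _ (by omega)
  omega

section data

variable {p e m a : ℕ} [Fact p.Prime] [CharP k p] {Z : Finset (Fin (m + 1 + 1) → k)}
  {A : MvPolynomial (Fin (m + 1 + 1)) k}

theorem Dat.dvd [IsAlgClosed k] (h : Dat k p e m a Z A) : DvdE (p ^ e) {0} A :=
  p_ML k p e (m + 1) a (Z : Set (Fin (m + 1 + 1) → k)) A (le_trans (by norm_num) h.ha) h.low h.Ah
    h.AZ h.Ae

theorem Dat.mul_dvd [IsAlgClosed k] (h : Dat k p e m a Z A) (f : MvPolynomial (Fin (m + 1)) k) :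
    DvdE (p ^ e) {0} (emb f * A) := FE_mul (emb_dvd _ f) h.dvd

/-- the order of `B f` at the points of `Z` -/
theorem Dat.mem [IsAlgClosed k] (h : Dat k p e m a Z A) (w : Fin (m + 1 + 1) → k) (hw : w ∈ Z)
    (f : MvPolynomial (Fin (m + 1)) k) (d s : ℕ) (hf : f.IsHomogeneous d)
    (hs : f ∈ mI (Fin.tail w) ^ s) : B p e A f ∈ mI w ^ (p ^ e + s) := by
  have hq : 0 < p ^ e := pow_pos (Fact.out : p.Prime).pos e
  obtain ⟨i, hi⟩ : ∃ i, Fin.tail w i ≠ 0 := by
    by_contra hcon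
    push Not at hcon
    exact h.tl w hw (funext hcon)
  have h1 := top_mem p e (m + 1) _ (((m + 1) * (p ^ e - 1) + 1) + s) w i.succ
    (Fin.succ_ne_zero i) hi (emb f * A) (h.mul_dvd f) ((emb_homog hf).mul h.Ah) (by
      rw [pow_add, mul_comm (emb f)]
      exact Ideal.mul_mem_mul (h.AZ w hw) (emb_mem_tail w hs))
  have h2 : (m + 1) * (p ^ e - 1) + 1 + s - (m + 1 - 1) * (p ^ e - 1) = p ^ e + s := by
    rw [Nat.add_sub_cancel]
    have : (m + 1) * (p ^ e - 1) = m * (p ^ e - 1) + (p ^ e - 1) := by ring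
    omega
  rwa [h2] at h1

omit [Fact p.Prime] [CharP k p] in
/-- the order of `B f` at `e₀` -/
theorem Dat.mem_e0 (h : Dat k p e m a Z A) (f : MvPolynomial (Fin (m + 1)) k) (d : ℕ)
    (hf : f.IsHomogeneous d) : B p e A f ∈ mI (e0 k (m + 1)) ^ d := by
  have h1 := t_HM k (m + 1 + 1) (topI (m + 1) (p ^ e - 1)) (e0 k (m + 1))
    (d + (m + 1) * (p ^ e - 1)) (emb f * A) (by
      rw [pow_add]
      exact Ideal.mul_mem_mul (emb_mem_e0 hf) h.Ae)
  rw [TS_deg, Nat.add_sub_cancel] at h1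
  exact h1

/-- extraction of the root -/
theorem Dat.root [IsAlgClosed k] (h : Dat k p e m a Z A) (f : MvPolynomial (Fin (m + 1)) k) (t : ℕ)
    (hf : f.IsHomogeneous (p ^ e * t)) (hB : B p e A f ≠ 0) :
    ∃ X : MvPolynomial (Fin (m + 1 + 1)) k, X ≠ 0 ∧ X.IsHomogeneous (a - 1 + t) ∧
      B p e A f = X ^ (p ^ e) ∧ X ∈ mI (e0 k (m + 1)) ^ t := by
  have hq : 0 < p ^ e := pow_pos (Fact.out : p.Prime).pos e
  have hh : (B p e A f).IsHomogeneous (p ^ e * (a - 1 + t)) := by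
    have h1 := p_HH k _ (topI (m + 1) (p ^ e - 1)) _ _ ((emb_homog hf).mul h.Ah)
    rw [TS_deg] at h1
    have h2 : p ^ e * t + ((a - 1) * p ^ e + (m + 1) * (p ^ e - 1)) - (m + 1) * (p ^ e - 1) =
        p ^ e * (a - 1 + t) := by
      rw [← Nat.add_assoc, Nat.add_sub_cancel]
      ring
    rwa [h2] at h1
  have hdv := top_dvd p e (m + 1) (emb f * A) (h.mul_dvd f)
  obtain ⟨c, d', X, -, hXh, hd, hX, hc⟩ := t_RT k p e (m + 1 + 1) _ 0 (B p e A f) hB hh
    (fun x hx i _ => hdv x hx i trivial)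
  have hc0 := hc hdv
  rw [hc0, pow_zero, one_mul] at hX
  rw [hc0, zero_add] at hd
  have hd' : a - 1 + t = d' := Nat.eq_of_mul_eq_mul_left hq hd
  have hX0 : X ≠ 0 := by
    rintro rfl
    rw [zero_pow hq.ne'] at hX
    exact hB hX
  refine ⟨X, hX0, hd' ▸ hXh, hX, ?_⟩
  have h1 := h.mem_e0 f _ hf
  rw [hX, mem_mI_pow_iff _ (pow_ne_zero _ hX0), TS_mu_pow _ hX0] at h1
  rw [mem_mI_pow_iff _ hX0]
  exact Nat.le_of_mul_le_mul_left h1 hq

end data

end

end Pool.Agent.W5h91.WL
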