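import Pool.Agent.W5h91.WL.Flag

/-!
The exact form in positive characteristic.
-/

set_option autoImplicit false

universe u

namespace Pool.Agent.W5h91.WL

open MvPolynomial Pool.Agent.Chud Pool.Agent.H580C

section

variable {k : Type u} [Field k]

/-- minimal subsets and interpolation -/
theorem min_vec (n a : ℕ) (Z : Finset (Fin (n + 1) → k)) (ha : 1 ≤ a) (hZ : ∀ v ∈ Z, v ≠ 0)
    (hlow : LowT (Z : Set (Fin (n + 1) → k)) 1 a) :
    ∃ Z' ⊆ Z, LowT (Z' : Set (Fin (n + 1) → k)) 1 a ∧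
      ∃ h : (Fin (n + 1) → k) → MvPolynomial (Fin (n + 1)) k,
        ∀ v ∈ Z', (h v).IsHomogeneous (a - 1) ∧ eval v (h v) = 1 ∧
          ∀ w ∈ Z', w ≠ v → eval w (h v) = 0 := by
  classical
  obtain ⟨S', hS', hmin⟩ : ∃ S' ⊆ Z, LowT (S' : Set (Fin (n + 1) → k)) 1 a ∧
      ∀ T ⊆ S', LowT (T : Set (Fin (n + 1) → k)) 1 a → T = S' := by
    have hex : (Z.powerset.filter (fun T : Finset (Fin (n + 1) → k) =>
        LowT (T : Set (Fin (n + 1) → k)) 1 a)).Nonempty :=
      ⟨Z, by simp [hlow]⟩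
    obtain ⟨S', h1, h2⟩ := Finset.exists_min_image _ Finset.card hex
    rw [Finset.mem_filter, Finset.mem_powerset] at h1
    refine ⟨S', h1.1, h1.2, ?_⟩
    intro T hT hTl
    refine Finset.eq_of_subset_of_card_le hT (h2 T ?_)
    rw [Finset.mem_filter, Finset.mem_powerset]
    exact ⟨hT.trans h1.1, hTl⟩
  obtain ⟨hlow, hmin⟩ := hmin
  refine ⟨S', hS', hlow, ?_⟩
  have key : ∀ p ∈ S', ∃ h : MvPolynomial (Fin (n + 1)) k, h.IsHomogeneous (a - 1) ∧
      eval p h = 1 ∧ ∀ q ∈ S', q ≠ p → eval q h = 0 := by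
    intro p hp
    have h1 : ¬ LowT ((S'.erase p : Finset _) : Set (Fin (n + 1) → k)) 1 a := by
      intro hl
      have := hmin _ (Finset.erase_subset p S') hl
      have h2 : p ∈ S'.erase p := by rw [this]; exact hp
      simp at h2
    unfold LowT at h1
    push Not at h1
    obtain ⟨f, d, hf0, hfd, hfv, hda⟩ := h1
    have hfv' : ∀ q ∈ S', q ≠ p → eval q f = 0 := by
      intro q hq hqp
      rw [← mem_mI_one]
      exact hfv _ (Finset.mem_coe.2 (Finset.mem_erase.2 ⟨hqp, hq⟩))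
    have hfp : eval p f ≠ 0 := by
      intro h2
      have := hlow f d hf0 hfd (by
        intro q hq
        rw [mem_mI_one]
        by_cases hqp : q = p
        · rw [hqp]; exact h2
        · exact hfv' q hq hqp)
      omega
    obtain ⟨i, hi⟩ : ∃ i, p i ≠ 0 := by
      by_contra hcon
      push Not at hcon
      exact hZ p (hS' hp) (funext hcon)
    set g := f * X i ^ (a - 1 - d) with hg
    have hgd : g.IsHomogeneous (a - 1) := by
      have := hfd.mul ((isHomogeneous_X k i).pow (a - 1 - d))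
      have he : d + 1 * (a - 1 - d) = a - 1 := by omega
      rw [he] at this
      exact this
    have hgp : eval p g ≠ 0 := by
      rw [hg, map_mul, map_pow, eval_X]
      exact mul_ne_zero hfp (pow_ne_zero _ hi)
    refine ⟨C ((eval p g)⁻¹) * g, ?_, ?_, ?_⟩
    · have := (isHomogeneous_C (Fin (n + 1)) ((eval p g)⁻¹)).mul hgd
      rwa [zero_add] at this
    · rw [map_mul, eval_C, inv_mul_cancel₀ hgp]
    · intro q hq hqp
      have h0 : eval q g = 0 := by rw [hg, map_mul, hfv' q hq hqp, zero_mul]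
      rw [map_mul, h0, mul_zero]
  choose! h hh using key
  exact ⟨h, hh⟩

/-- transport of `LowT` under linear isomorphisms -/
theorem low_map {N t a : ℕ} (e : (Fin N → k) ≃ₗ[k] (Fin N → k)) (Z : Set (Fin N → k))
    (h : LowT Z t a) : LowT (e.symm '' Z) t a := by
  intro F d hF0 hF hFv
  obtain ⟨inj, hom, -, ord, -, -⟩ := t_SU k N e.symm
  refine h (sub e.symm F) d ?_ (hom F d hF) ?_
  · rw [Ne, ← map_zero (sub e.symm)]
    exact fun hcon => hF0 (inj hcon)
  · intro v hv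
    rw [ord]
    exact hFv _ ⟨v, hv, rfl⟩

variable [IsAlgClosed k]

/-- the exact form for a minimal set, in good coordinates -/
theorem exact_min (p n a : ℕ) [Fact p.Prime] [CharP k p] (hn : 1 ≤ n) (ha : 2 ≤ a)
    (Z : Finset (Fin (n + 1) → k)) (hne : Z.Nonempty) (hv0 : ∀ v ∈ Z, v 0 ≠ 0)
    (hlow : LowT (Z : Set (Fin (n + 1) → k)) 1 a)
    (h : (Fin (n + 1) → k) → MvPolynomial (Fin (n + 1)) k)
    (hh : ∀ v ∈ Z, (h v).IsHomogeneous (a - 1) ∧ eval v (h v) = 1 ∧
      ∀ w ∈ Z, w ≠ v → eval w (h v) = 0)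
    (hY : ∀ e : ℕ, ∃ Y : MvPolynomial (Fin (n + 1)) k, Y ≠ 0 ∧
      Y.IsHomogeneous ((a - 1 + n) * (p ^ e - 1) + (a - 2)) ∧
      ∀ v ∈ Z, Y ∈ mI v ^ (n * (p ^ e - 1))) :
    ∃ F : MvPolynomial (Fin (n + 1)) k, F ≠ 0 ∧ F.IsHomogeneous (a - 1 + n) ∧
      ∀ v ∈ Z, F ∈ mI v ^ n := by
  classical
  have hp : p.Prime := Fact.out
  have hae : a ≤ p ^ a := (Nat.lt_pow_self hp.one_lt).le
  have hr : 2 ^ Z.card ≤ p ^ Z.card := Nat.pow_le_pow_left hp.two_le _
  obtain ⟨Y, hY0, hYh, hYv⟩ := hY (Z.card + a)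
  obtain ⟨v, hv, -, A, hA0, hAh, hAw, hAv⟩ := p_PA k p Z.card a n a Z h Y (X 0) hn ha hae hne hv0
    hlow hh hY0 hYh hYv (X_ne_zero 0) (isHomogeneous_X k 0)
  obtain ⟨m, rfl⟩ : ∃ m, n = m + 1 := ⟨n - 1, by omega⟩
  have hv00 : v ≠ 0 := by
    rintro rfl
    exact hv0 0 hv rfl
  obtain ⟨f, hf⟩ := t_CE k (m + 1) v hv00
  obtain ⟨inj, hom, -, ord, -, -⟩ := t_SU k (m + 1 + 1) f
  obtain ⟨inj', hom', -, ord', -, -⟩ := t_SU k (m + 1 + 1) f.symm
  have hfv : f.symm v = e0 k (m + 1) := by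
    rw [← hf, LinearEquiv.symm_apply_apply]
  set W : Finset (Fin (m + 1 + 1) → k) := (Z.erase v).image f.symm with hW
  have hDat : Dat k p Z.card m a W (sub f A) := by
    refine ⟨ha, ?_, ?_, hom A _ hAh, ?_, ?_, ?_⟩
    · have h1 : insert (e0 k (m + 1)) (W : Set (Fin (m + 1 + 1) → k)) = f.symm '' (Z : Set _) := by
        rw [hW, Finset.coe_image, ← hfv, ← Set.image_insert_eq, ← Finset.coe_insert,
          Finset.insert_erase hv]
      rw [h1]
      exact low_map f _ hlow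
    · rw [Ne, ← map_zero (sub f)]
      exact fun hcon => hA0 (inj hcon)
    · intro w hw
      obtain ⟨z, hz, rfl⟩ := Finset.mem_image.1 hw
      rw [ord, LinearEquiv.apply_symm_apply]
      exact hAw z (Finset.mem_of_mem_erase hz) (Finset.ne_of_mem_erase hz)
    · rw [ord, hf]
      exact hAv
    · intro w hw h0
      obtain ⟨z, hz, rfl⟩ := Finset.mem_image.1 hw
      set c := f.symm z 0 with hc
      have h1 : f.symm z = c • e0 k (m + 1) := by
        ext i
        refine Fin.cases ?_ (fun j => ?_) i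
        · simp [e0, hc]
        · have := congrFun h0 j
          simp only [Fin.tail, Pi.zero_apply] at this
          simp [e0, this]
      have h2 : z = c • v := by
        rw [← f.apply_symm_apply z, h1, map_smul, hf]
      have h3 := (hh v hv).2.2 z (Finset.mem_of_mem_erase hz) (Finset.ne_of_mem_erase hz)
      rw [h2, eval_smul_homog (hh v hv).1, (hh v hv).2.1, mul_one] at h3
      have h4 : c = 0 := by
        have := pow_eq_zero_iff (n := a - 1) (by omega) |>.1 h3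
        exact this
      rw [h4, zero_smul] at h2
      exact hv0 z (Finset.mem_of_mem_erase hz) (by rw [h2]; rfl)
  have hcard : (dirs W).card ≤ Z.card := by
    refine Finset.card_image_le.trans ?_
    refine Finset.card_image_le.trans ?_
    exact Finset.card_le_card (Finset.erase_subset _ _)
  obtain ⟨X₁, hX0, hXh, hXe, hXw⟩ := hDat.exact ((Nat.pow_le_pow_right (by norm_num) hcard).trans hr)
  refine ⟨sub f.symm X₁, ?_, hom' _ _ hXh, ?_⟩
  · rw [Ne, ← map_zero (sub f.symm)]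
    exact fun hcon => hX0 (inj' hcon)
  · intro z hz
    rw [ord']
    by_cases hzv : z = v
    · rw [hzv, hfv]; exact hXe
    · exact hXw _ (Finset.mem_image_of_mem _ (Finset.mem_erase.2 ⟨hzv, hz⟩))

/-- the top derivative of the auxiliary forms -/
theorem top_root (p e n a : ℕ) [Fact p.Prime] [CharP k p] (ha : 2 ≤ a)
    (Z : Finset (Fin (n + 1) → k)) (hne : Z.Nonempty) (hv0 : ∀ v ∈ Z, v 0 ≠ 0)
    (hlow : LowT (Z : Set (Fin (n + 1) → k)) 1 a) (Y : MvPolynomial (Fin (n + 1)) k)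
    (hY0 : Y ≠ 0) (hY : Y.IsHomogeneous ((a - 1 + n) * (p ^ e - 1) + (a - 2)))
    (hYv : ∀ v ∈ Z, Y ∈ mI v ^ (n * (p ^ e - 1))) :
    hd (topI n (p ^ e - 1)) Y ≠ 0 ∧ ∃ U : MvPolynomial (Fin (n + 1)) k,
      U.IsHomogeneous (a - 2) ∧ hd (topI n (p ^ e - 1)) Y = X 0 ^ (p ^ e - 1) * U ^ (p ^ e) := by
  have hq : 0 < p ^ e := pow_pos (Fact.out : p.Prime).pos e
  obtain ⟨b, rfl⟩ : ∃ b, a = b + 2 := ⟨a - 2, by omega⟩
  obtain ⟨q', hq'⟩ : ∃ q', p ^ e = q' + 1 := ⟨p ^ e - 1, by omega⟩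
  have h1 : hd (topI n (p ^ e - 1)) Y ≠ 0 := by
    refine p_TN k p e n _ (b + 2) (Z : Set (Fin (n + 1) → k)) Y (Finset.finite_toSet Z) hne (by omega) hlow
      hv0 hY0 hY hYv ?_
    rw [hq', Nat.add_sub_cancel, show b + 2 - 1 = b + 1 by omega, Nat.add_sub_cancel]
    nlinarith
  refine ⟨h1, ?_⟩
  obtain ⟨c, d', U, hc, -, hU, hd, hE, -⟩ := p_TS k p e n _ Y hY h1
  rw [hq', Nat.add_sub_cancel, show b + 2 - 1 = b + 1 by omega, Nat.add_sub_cancel] at hd
  rw [hq'] at hc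
  have h2 : c + (q' + 1) * d' = b * (q' + 1) + q' := by
    nlinarith
  have h3 : d' = b := by
    rcases lt_trichotomy d' b with h | h | h
    · exfalso
      have : (q' + 1) * (d' + 1) ≤ (q' + 1) * b := Nat.mul_le_mul_left _ h
      nlinarith
    · exact h
    · exfalso
      have : (q' + 1) * (b + 1) ≤ (q' + 1) * d' := Nat.mul_le_mul_left _ h
      nlinarith
  have h4 : c = q' := by
    rw [h3] at h2
    nlinarith
  refine ⟨U, ?_, ?_⟩
  · rw [Nat.add_sub_cancel, ← h3]; exact hU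
  · rw [hE, h4, hq', Nat.add_sub_cancel]

/-- the auxiliary forms are multiples of a power of the exact form -/
theorem mult (p e n a : ℕ) [Fact p.Prime] [CharP k p] (ha : 2 ≤ a)
    (Z : Finset (Fin (n + 1) → k)) (hne : Z.Nonempty) (hv0 : ∀ v ∈ Z, v 0 ≠ 0)
    (hlow : LowT (Z : Set (Fin (n + 1) → k)) 1 a) (F : MvPolynomial (Fin (n + 1)) k)
    (hF0 : F ≠ 0) (hF : F.IsHomogeneous (a - 1 + n)) (hFv : ∀ v ∈ Z, F ∈ mI v ^ n)
    (Y : MvPolynomial (Fin (n + 1)) k)
    (hY : Y.IsHomogeneous ((a - 1 + n) * (p ^ e - 1) + (a - 2)))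
    (hYv : ∀ v ∈ Z, Y ∈ mI v ^ (n * (p ^ e - 1))) :
    ∃ U : MvPolynomial (Fin (n + 1)) k, U.IsHomogeneous (a - 2) ∧ Y = F ^ (p ^ e - 1) * U := by
  have hp : p.Prime := Fact.out
  have hq : 0 < p ^ e := pow_pos hp.pos e
  set R := homogeneousSubmodule (Fin (n + 1)) k (a - 2) with hR
  have hfin : Module.Finite k R := Module.Finite.iff_fg.2 (homogeneousSubmodule_fg _ _ _)
  set b := Module.finBasis k R with hb
  set L : MvPolynomial (Fin (n + 1)) k →ₗ[k] MvPolynomial (Fin (n + 1)) k :=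
    LinearMap.mulLeft k (F ^ (p ^ e - 1)) with hL
  have hFq : F ^ (p ^ e - 1) ≠ 0 := pow_ne_zero _ hF0
  have hLinj : Function.Injective L := by
    intro x y hxy
    exact mul_left_cancel₀ hFq hxy
  by_cases hYs : Y ∈ Submodule.span k (Set.range (fun i => L (b i)))
  · have h1 : Submodule.span k (Set.range (fun i => L (b i))) ≤ R.map L := by
      rw [Submodule.span_le]
      rintro _ ⟨i, rfl⟩
      exact ⟨b i, (b i).2, rfl⟩
    obtain ⟨U, hU, hUY⟩ := h1 hYs
    exact ⟨U, hU, hUY.symm⟩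
  · exfalso
    have hli : LinearIndependent k (Fin.cons Y (fun i => L (b i)) :
        Fin (Module.finrank k R + 1) → MvPolynomial (Fin (n + 1)) k) := by
      rw [linearIndependent_finCons]
      refine ⟨?_, hYs⟩
      have h1 : LinearIndependent k (fun i => ((b i : R) : MvPolynomial (Fin (n + 1)) k)) :=
        b.linearIndependent.map' R.subtype (Submodule.ker_subtype _)
      exact h1.map' L (LinearMap.ker_eq_bot.2 hLinj)
    set y : Fin (Module.finrank k R + 1) → MvPolynomial (Fin (n + 1)) k :=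
      Fin.cons Y (fun i => L (b i)) with hy
    have hyh : ∀ j, (y j).IsHomogeneous ((a - 1 + n) * (p ^ e - 1) + (a - 2)) ∧
        ∀ v ∈ Z, y j ∈ mI v ^ (n * (p ^ e - 1)) := by
      intro j
      refine Fin.cases ⟨hY, hYv⟩ (fun i => ?_) j
      rw [hy, Fin.cons_succ]
      constructor
      · exact (hF.pow _).mul (b i).2
      · intro v hv
        refine Ideal.mul_mem_right _ _ ?_
        rw [pow_mul]
        exact Ideal.pow_mem_pow (hFv v hv) _
    have hy0 : ∀ j, y j ≠ 0 := fun j => hli.ne_zero j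
    choose u hu hyu using fun j =>
      (top_root p e n a ha Z hne hv0 hlow (y j) (hy0 j) (hyh j).1 (hyh j).2).2
    have hdep : ¬ LinearIndependent k (fun j => (⟨u j, hu j⟩ : R)) := by
      intro hcon
      have := hcon.fintype_card_le_finrank
      rw [Fintype.card_fin] at this
      omega
    rw [Fintype.not_linearIndependent_iff] at hdep
    obtain ⟨g, hg, j₀, hj₀⟩ := hdep
    have hg' : ∑ j, C (g j) * u j = 0 := by
      have := congrArg (Submodule.subtype R) hg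
      rw [map_sum, map_zero] at this
      rw [← this]
      refine Finset.sum_congr rfl fun j _ => ?_
      rw [map_smul, Submodule.subtype_apply, smul_eq_C_mul]
    set W := ∑ j, (g j ^ (p ^ e)) • y j with hW
    have hW0 : W = 0 := by
      by_contra hne0
      refine (top_root p e n a ha Z hne hv0 hlow W hne0 ?_ ?_).1 ?_
      · rw [hW]
        apply IsHomogeneous.sum
        intro j _
        rw [smul_eq_C_mul]
        have := (isHomogeneous_C (Fin (n + 1)) (g j ^ (p ^ e))).mul (hyh j).1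
        rwa [zero_add] at this
      · intro v hv
        rw [hW]
        refine Ideal.sum_mem _ fun j _ => ?_
        rw [smul_eq_C_mul]
        exact Ideal.mul_mem_left _ _ ((hyh j).2 v hv)
      · rw [hW, map_sum]
        have h1 : ∀ j ∈ (Finset.univ : Finset (Fin (Module.finrank k R + 1))),
            hd (topI n (p ^ e - 1)) ((g j ^ (p ^ e)) • y j) =
            X 0 ^ (p ^ e - 1) * (C (g j) * u j) ^ (p ^ e) := by
          intro j _
          rw [map_smul, hyu, smul_eq_C_mul, map_pow, mul_pow]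
          ring
        rw [Finset.sum_congr rfl h1, ← Finset.mul_sum, ← sum_pow_char_pow, hg', zero_pow hq.ne',
          mul_zero]
    rw [Fintype.linearIndependent_iff] at hli
    have := hli (fun j => g j ^ (p ^ e)) hW0 j₀
    exact hj₀ (pow_eq_zero_iff hq.ne' |>.1 this)

/-- the exact form in good coordinates -/
theorem exact_good (p n a : ℕ) [Fact p.Prime] [CharP k p] (hn : 1 ≤ n) (ha : 2 ≤ a)
    (Z : Finset (Fin (n + 1) → k)) (hv0 : ∀ v ∈ Z, v 0 ≠ 0)
    (hlow : LowT (Z : Set (Fin (n + 1) → k)) 1 a)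
    (hY : ∀ e : ℕ, ∃ Y : MvPolynomial (Fin (n + 1)) k, Y ≠ 0 ∧
      Y.IsHomogeneous ((a - 1 + n) * (p ^ e - 1) + (a - 2)) ∧
      ∀ v ∈ Z, Y ∈ mI v ^ (n * (p ^ e - 1))) :
    ∃ F : MvPolynomial (Fin (n + 1)) k, F ≠ 0 ∧ F.IsHomogeneous (a - 1 + n) ∧
      ∀ v ∈ Z, F ∈ mI v ^ n := by
  classical
  have hp : p.Prime := Fact.out
  obtain ⟨Z', hZ', hlow', h, hh⟩ := min_vec n a Z (by omega) (by
    intro v hv h0
    exact hv0 v hv (by rw [h0]; rfl)) hlow
  have hne : Z'.Nonempty := by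
    by_contra hcon
    rw [Finset.not_nonempty_iff_eq_empty] at hcon
    subst hcon
    have := hlow' 1 0 one_ne_zero (isHomogeneous_one _ _) (by simp)
    omega
  have hv0' : ∀ v ∈ Z', v 0 ≠ 0 := fun v hv => hv0 v (hZ' hv)
  obtain ⟨F, hF0, hF, hFv⟩ := exact_min p n a hn ha Z' hne hv0' hlow' h hh (by
    intro e
    obtain ⟨Y, hY0, hYh, hYv⟩ := hY e
    exact ⟨Y, hY0, hYh, fun v hv => hYv v (hZ' hv)⟩)
  refine ⟨F, hF0, hF, ?_⟩
  intro v hv
  have hae : a < p ^ a := Nat.lt_pow_self hp.one_lt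
  obtain ⟨Y, hY0, hYh, hYv⟩ := hY a
  obtain ⟨U, hU, hYU⟩ := mult p a n a ha Z' hne hv0' hlow' F hF0 hF hFv Y hYh
    (fun v hv => hYv v (hZ' hv))
  have hU0 : U ≠ 0 := by
    rintro rfl
    rw [mul_zero] at hYU
    exact hY0 hYU
  have h1 := (mem_mI_pow_iff v hY0 _).1 (hYv v hv)
  rw [hYU, mu_mul v (pow_ne_zero _ hF0) hU0, TS_mu_pow v hF0] at h1
  have h2 := (mu_le_totalDegree v hU0).trans hU.totalDegree_le
  rw [mem_mI_pow_iff v hF0]
  by_contra hcon
  push Not at hcon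
  obtain ⟨q', hq'⟩ : ∃ q', p ^ a = q' + 1 := ⟨p ^ a - 1, by omega⟩
  rw [hq', Nat.add_sub_cancel] at h1
  have h3 : q' * (mu v F + 1) ≤ q' * n := Nat.mul_le_mul_left _ hcon
  have h4 : q' * n = n * q' := mul_comm _ _
  have h5 : q' * (mu v F + 1) = q' * mu v F + q' := by ring
  omega

/-- **The exact form in positive characteristic.** -/
theorem exact_char (p n a : ℕ) [Fact p.Prime] [CharP k p] (hn : 1 ≤ n) (ha : 2 ≤ a)
    (Z : Finset (Fin (n + 1) → k)) (hv0 : ∀ v ∈ Z, v ≠ 0)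
    (hlow : LowT (Z : Set (Fin (n + 1) → k)) 1 a)
    (hY : ∀ e : ℕ, ∃ Y : MvPolynomial (Fin (n + 1)) k, Y ≠ 0 ∧
      Y.IsHomogeneous ((a - 1 + n) * (p ^ e - 1) + (a - 2)) ∧
      ∀ v ∈ Z, Y ∈ mI v ^ (n * (p ^ e - 1))) :
    ∃ F : MvPolynomial (Fin (n + 1)) k, F ≠ 0 ∧ F.IsHomogeneous (a - 1 + n) ∧
      ∀ v ∈ Z, F ∈ mI v ^ n := by
  classical
  have hinf : Infinite k := IsAlgClosed.instInfinite
  obtain ⟨f, hf⟩ := t_CO k n (Z : Set (Fin (n + 1) → k)) (Finset.finite_toSet Z) hv0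
  obtain ⟨inj, hom, -, ord, -, -⟩ := t_SU k (n + 1) f
  obtain ⟨inj', hom', -, ord', -, -⟩ := t_SU k (n + 1) f.symm
  obtain ⟨F, hF0, hF, hFv⟩ := exact_good p n a hn ha (Z.image f.symm) (by
    intro v hv
    obtain ⟨z, hz, rfl⟩ := Finset.mem_image.1 hv
    exact hf z hz) (by
    rw [Finset.coe_image]
    exact low_map f _ hlow) (by
    intro e
    obtain ⟨Y, hY0, hYh, hYv⟩ := hY e
    refine ⟨sub f Y, ?_, hom _ _ hYh, ?_⟩
    · rw [Ne, ← map_zero (sub f)]
      exact fun hcon => hY0 (inj hcon)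
    · intro v hv
      obtain ⟨z, hz, rfl⟩ := Finset.mem_image.1 hv
      rw [ord, LinearEquiv.apply_symm_apply]
      exact hYv z hz)
  refine ⟨sub f.symm F, ?_, hom' _ _ hF, ?_⟩
  · rw [Ne, ← map_zero (sub f.symm)]
    exact fun hcon => hF0 (inj' hcon)
  · intro z hz
    rw [ord']
    exact hFv _ (Finset.mem_image_of_mem _ hz)

end

end Pool.Agent.W5h91.WL
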