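import Pool.Agent.W5h91.WL.Van

/-!
Complete flags: an exact form from the auxiliary form `A`.
-/

set_option autoImplicit false

universe u

namespace Pool.Agent.W5h91.WL

open MvPolynomial Pool.Agent.Chud Pool.Agent.H580C

section

variable {k : Type u} [Field k]

theorem hd_zero' {N : ℕ} (F : MvPolynomial (Fin N) k) : hd 0 F = F := by
  ext m
  rw [t_HC]; simp

theorem eval_smul_homog {N d : ℕ} {F : MvPolynomial (Fin N) k} (hF : F.IsHomogeneous d) (c : k)
    (x : Fin N → k) : eval (c • x) F = c ^ d * eval x F := by
  rw [eval_eq', eval_eq', Finset.mul_sum]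
  refine Finset.sum_congr rfl fun m hm => ?_
  have h1 : m.degree = d := by
    have := hF (mem_support_iff.1 hm)
    rw [← this, Finsupp.degree_eq_weight_one]
    rfl
  have h2 : ∏ i, (c • x) i ^ m i = c ^ d * ∏ i, x i ^ m i := by
    simp only [Pi.smul_apply, smul_eq_mul, mul_pow, Finset.prod_mul_distrib]
    rw [Finset.prod_pow_eq_pow_sum, ← h1, Finsupp.degree_eq_sum]
  rw [h2]
  ring

/-- a linear functional as a polynomial -/
noncomputable def linP {N : ℕ} (l : (Fin N → k) →ₗ[k] k) : MvPolynomial (Fin N) k :=
  ∑ i, C (l (Pi.single i 1)) * X i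

theorem eval_linP {N : ℕ} (l : (Fin N → k) →ₗ[k] k) (x : Fin N → k) : eval x (linP l) = l x := by
  unfold linP
  rw [map_sum]
  conv_rhs => rw [← Finset.univ_sum_single x, map_sum]
  refine Finset.sum_congr rfl fun i _ => ?_
  rw [map_mul, eval_C, eval_X]
  have : Pi.single i (x i) = x i • (Pi.single i (1 : k) : Fin N → k) := by
    rw [← Pi.single_smul, smul_eq_mul, mul_one]
  rw [this, map_smul, smul_eq_mul, mul_comm]

theorem linP_homog {N : ℕ} (l : (Fin N → k) →ₗ[k] k) : (linP l).IsHomogeneous 1 := by
  unfold linP
  apply IsHomogeneous.sum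
  intro i _
  have := (isHomogeneous_C (Fin N) (l (Pi.single i 1))).mul (isHomogeneous_X k i)
  simpa using this

/-- `f` is homogeneous of degree `q` and invariant under translation by `U` -/
structure Inv {N : ℕ} (q : ℕ) (U : Submodule k (Fin N → k)) (f : MvPolynomial (Fin N) k) :
    Prop where
  hom : f.IsHomogeneous q
  inv : ∀ u ∈ U, ∀ z, eval (z + u) f = eval z f

/-- a separating form -/
theorem exists_sep {N q : ℕ} (D : Finset (Fin N → k)) (T : Finset (Fin N → k))
    (x : Fin N → k) (hx : x ∉ spn T) (hq : 2 ^ D.card ≤ q) :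
    ∃ φ : MvPolynomial (Fin N) k, Inv q (spn T) φ ∧ eval x φ = 1 ∧
      ∀ T' ⊆ D, spn T ≤ spn T' → x ∉ spn T' → VanOn φ (spn T') := by
  classical
  have h1 : ∀ U : Submodule k (Fin N → k), x ∉ U → ∃ l : (Fin N → k) →ₗ[k] k, l x = 1 ∧
      ∀ u ∈ U, l u = 0 := by
    intro U hU
    obtain ⟨l, hl, hlU⟩ := Submodule.exists_le_ker_of_notMem hU
    refine ⟨(l x)⁻¹ • l, ?_, ?_⟩
    · rw [LinearMap.smul_apply, smul_eq_mul, inv_mul_cancel₀ hl]
    · intro u hu
      rw [LinearMap.smul_apply, LinearMap.mem_ker.1 (hlU hu), smul_zero]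
  choose! l hl1 hl0 using h1
  set P : Finset (Finset (Fin N → k)) :=
    D.powerset.filter (fun T' => spn T ≤ spn T' ∧ x ∉ spn T') with hP
  have hPc : P.card ≤ q := by
    refine (Finset.card_le_card (Finset.filter_subset _ _)).trans ?_
    rw [Finset.card_powerset]
    exact hq
  have hPm : ∀ T' ∈ P, T' ⊆ D ∧ spn T ≤ spn T' ∧ x ∉ spn T' := by
    intro T' hT'
    rw [hP, Finset.mem_filter, Finset.mem_powerset] at hT'
    exact hT'
  refine ⟨linP (l (spn T)) ^ (q - P.card) * ∏ T' ∈ P, linP (l (spn T')), ⟨?_, ?_⟩, ?_, ?_⟩
  · have h2 : (linP (l (spn T)) ^ (q - P.card)).IsHomogeneous (1 * (q - P.card)) :=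
      (linP_homog _).pow _
    have h3 : (∏ T' ∈ P, linP (l (spn T'))).IsHomogeneous (∑ _T' ∈ P, 1) :=
      IsHomogeneous.prod _ _ _ (fun T' _ => linP_homog _)
    have h4 := h2.mul h3
    rw [one_mul, Finset.sum_const, smul_eq_mul, mul_one, Nat.sub_add_cancel hPc] at h4
    exact h4
  · intro u hu z
    have h2 : ∀ T', spn T ≤ spn T' → x ∉ spn T' → l (spn T') (z + u) = l (spn T') z := by
      intro T' hT' hx'
      rw [map_add, hl0 _ hx' u (hT' hu), add_zero]
    rw [map_mul, map_pow, map_prod, map_mul, map_pow, map_prod, eval_linP, eval_linP,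
      h2 T le_rfl hx]
    congr 1
    refine Finset.prod_congr rfl fun T' hT' => ?_
    rw [eval_linP, eval_linP, h2 T' (hPm T' hT').2.1 (hPm T' hT').2.2]
  · rw [map_mul, map_pow, map_prod, eval_linP, hl1 _ hx, one_pow, one_mul]
    refine Finset.prod_eq_one fun T' hT' => ?_
    rw [eval_linP, hl1 _ (hPm T' hT').2.2]
  · intro T' hT'D hT' hx' z hz
    rw [map_mul, map_prod]
    apply mul_eq_zero_of_right
    refine Finset.prod_eq_zero (i := T') ?_ ?_
    · rw [hP, Finset.mem_filter, Finset.mem_powerset]
      exact ⟨hT'D, hT', hx'⟩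
    · rw [eval_linP, hl0 _ hx' z hz]

variable {p e m a : ℕ} [Fact p.Prime] [CharP k p] [IsAlgClosed k]
  {Z : Finset (Fin (m + 1 + 1) → k)} {A : MvPolynomial (Fin (m + 1 + 1)) k}

/-- the top derivative of `A` is nonzero -/
theorem Dat.one (h : Dat k p e m a Z A) : B p e A 1 ≠ 0 := by
  have hq : 0 < p ^ e := pow_pos (Fact.out : p.Prime).pos e
  obtain ⟨b, -, hbq, hb0, hbA, hdv⟩ := p_MX k p e (m + 1 + 1) {i | i ≠ 0} A 0
    (fun i => by simpa using hq) (fun i _ => rfl) (by rw [hd_zero']; exact h.A0)
  have hb00 : b 0 = 0 := hb0 0 (by simp)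
  have hdv' : DvdE (p ^ e) Set.univ (hd b A) := by
    intro c hc i _
    by_cases hi : i = 0
    · subst hi
      have h1 : c + b ∈ A.support := by
        rw [mem_support_iff]
        intro h2
        rw [mem_support_iff, t_HC, h2, mul_zero] at hc
        exact hc rfl
      have h2 := h.dvd _ h1 0 rfl
      rwa [Finsupp.add_apply, hb00, add_zero] at h2
    · exact hdv c hc i hi
  have hdeg : b.degree = ∑ i : Fin (m + 1), b i.succ := by
    rw [Finsupp.degree_eq_sum, Fin.sum_univ_succ, hb00, zero_add]
  have hle : ∑ i : Fin (m + 1), b i.succ ≤ ∑ _i : Fin (m + 1), (p ^ e - 1) := by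
    refine Finset.sum_le_sum fun i _ => ?_
    have := hbq i.succ
    omega
  have hconst : ∑ _i : Fin (m + 1), (p ^ e - 1) = (m + 1) * (p ^ e - 1) := by
    rw [Finset.sum_const, Finset.card_univ, Fintype.card_fin, smul_eq_mul]
  have hh := p_HH k _ b _ _ h.Ah
  obtain ⟨c, d', G, -, hGh, hd, hG, hc⟩ := t_RT k p e (m + 1 + 1) _ 0 (hd b A) hbA hh
    (fun x hx i _ => hdv' x hx i trivial)
  have hc0 := hc hdv'
  rw [hc0, pow_zero, one_mul] at hG
  rw [hc0, zero_add] at hd
  have hG0 : G ≠ 0 := by
    rintro rfl
    rw [zero_pow hq.ne'] at hG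
    exact hbA hG
  have had : a - 1 ≤ d' := by
    by_contra hcon
    push Not at hcon
    have h1 : p ^ e * d' < p ^ e * (a - 1) := Nat.mul_lt_mul_of_pos_left hcon hq
    have h2 : p ^ e * (a - 1) = (a - 1) * p ^ e := mul_comm _ _
    omega
  obtain ⟨t, rfl⟩ : ∃ t, d' = a - 1 + t := ⟨d' - (a - 1), by omega⟩
  have ht : p ^ e * t + b.degree = (m + 1) * (p ^ e - 1) := by
    have h1 : p ^ e * (a - 1 + t) = (a - 1) * p ^ e + p ^ e * t := by ring
    omega
  rcases Nat.eq_zero_or_pos t with rfl | ht0
  · have hb : b = topI (m + 1) (p ^ e - 1) := by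
      have h1 : ∀ i ∈ (Finset.univ : Finset (Fin (m + 1))), b i.succ = p ^ e - 1 := by
        rw [← Finset.sum_eq_sum_iff_of_le]
        · rw [← hdeg, hconst]
          omega
        · intro i _
          have := hbq i.succ
          omega
      ext i
      refine Fin.cases ?_ (fun j => ?_) i
      · rw [hb00, topI_zero]
      · rw [h1 j (Finset.mem_univ _), topI_succ _ _ _ (Fin.succ_ne_zero j)]
    unfold B
    rw [map_one, one_mul, ← hb]
    exact hbA
  · exfalso
    apply hG0
    refine rigid p (m + 1) a (e0 k (m + 1)) (Z : Set (Fin (m + 1 + 1) → k)) h.ha h.low t ht0 G hGh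
      ?_ ?_
    · intro w hw
      apply mem_of_pow_mem w (p ^ e) t G hG0
      rw [← hG]
      refine mem_mI_mono w (t_HM k _ b w _ _ (h.AZ w hw)) ?_
      omega
    · have h1 := t_HM k _ b _ _ _ h.Ae
      rw [hG, mem_mI_pow_iff _ (pow_ne_zero _ hG0), TS_mu_pow _ hG0] at h1
      rw [mem_mI_pow_iff _ hG0]
      refine Nat.le_of_mul_le_mul_left ?_ hq
      omega

/-- complete flags -/
theorem Dat.flag (h : Dat k p e m a Z A) (hq : 2 ^ (dirs Z).card ≤ p ^ e) :
    ∀ t ≤ m + 1, ∃ T ⊆ dirs Z, Module.finrank k (spn T) = t ∧
      ∃ F : MvPolynomial (Fin (m + 1)) k, F.IsHomogeneous (p ^ e * t) ∧ B p e A F ≠ 0 ∧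
        ∀ T' ⊆ dirs Z, ¬ spn T ≤ spn T' → VanOn F (spn T') := by
  classical
  intro t
  induction t with
  | zero =>
    intro _
    refine ⟨∅, Finset.empty_subset _, by simp, 1, ?_, h.one, ?_⟩
    · rw [mul_zero]; exact isHomogeneous_one _ _
    · intro T' _ hcon
      refine absurd ?_ hcon
      rw [spn, Finset.coe_empty, Submodule.span_empty]
      exact bot_le
  | succ t ih =>
    intro ht
    obtain ⟨T, hTD, hTt, F, hFh, hFB, hFV⟩ := ih (by omega)
    -- a linear form vanishing on `spn T`
    have hlt : spn T < ⊤ := by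
      rw [lt_top_iff_ne_top]
      intro htop
      rw [htop, finrank_top, Module.finrank_fin_fun] at hTt
      omega
    obtain ⟨l, hl0, hlT⟩ := Submodule.exists_le_ker_of_lt_top _ hlt
    have hy0 : linP l ≠ 0 := by
      intro h0
      apply hl0
      ext i
      have := eval_linP l (Pi.single i 1)
      rw [h0, map_zero] at this
      simp [← this]
    have hyB : B p e A (linP l ^ (p ^ e) * F) ≠ 0 := by
      rw [B_pow_mul]
      refine mul_ne_zero (pow_ne_zero _ ?_) hFB
      rw [Ne, ← map_zero (emb (k := k) (m := m))]
      exact fun hcon => hy0 (rename_injective _ (Fin.succ_injective _) hcon)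
    -- some separating form works
    obtain ⟨x, hxD, hxT, φ, hφ, hφ1, hφV, hφB⟩ : ∃ x ∈ dirs Z, x ∉ spn T ∧
        ∃ φ : MvPolynomial (Fin (m + 1)) k, Inv (p ^ e) (spn T) φ ∧ eval x φ = 1 ∧
          (∀ T' ⊆ dirs Z, spn T ≤ spn T' → x ∉ spn T' → VanOn φ (spn T')) ∧
          B p e A (F * φ) ≠ 0 := by
      by_contra hcon
      push Not at hcon
      have key : ∀ R : Finset (Fin (m + 1) → k), R ⊆ dirs Z → ∀ g : MvPolynomial (Fin (m + 1)) k,
          Inv (p ^ e) (spn T) g →
          (∀ x ∈ dirs Z, x ∉ spn T → x ∉ R → eval x g = 0) → B p e A (F * g) = 0 := by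
        intro R
        induction R using Finset.induction_on with
        | empty =>
          intro _ g hg hg0
          refine h.van (t + 1) (F * g) ?_ ?_
          · have := hFh.mul hg.hom
            rwa [show p ^ e * t + p ^ e = p ^ e * (t + 1) by ring] at this
          · intro T' hT' hT't z hz
            rw [map_mul]
            by_cases hTT' : spn T ≤ spn T'
            · apply mul_eq_zero_of_right
              have hg00 : eval 0 g = 0 := by
                have := eval_smul_homog hg.hom 0 0
                rwa [zero_smul, zero_pow (pow_pos (Fact.out : p.Prime).pos e).ne', zero_mul] at this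
              by_cases hsub : spn T' ≤ spn T
              · have := hg.inv z (hsub hz) 0
                rw [zero_add] at this
                rw [this, hg00]
              · obtain ⟨x, hxT', hxT⟩ : ∃ x ∈ T', x ∉ spn T := by
                  by_contra hcon2
                  push Not at hcon2
                  exact hsub (Submodule.span_le.2 hcon2)
                have h1 : spn (insert x T) ≤ spn T' := by
                  rw [spn, Finset.coe_insert, Submodule.span_le]
                  rintro y (rfl | hy)
                  · exact Submodule.subset_span hxT'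
                  · exact hTT' (Submodule.subset_span hy)
                have h2 : Module.finrank k (spn T) < Module.finrank k (spn (insert x T)) := by
                  apply Submodule.finrank_lt_finrank_of_lt
                  refine lt_of_le_of_ne (spn_le_insert _ _) ?_
                  intro heq
                  exact hxT (heq ▸ mem_spn_insert T x)
                have h3 : spn (insert x T) = spn T' :=
                  Submodule.eq_of_le_of_finrank_le h1 (by omega)
                rw [← h3, spn, Finset.coe_insert, Submodule.mem_span_insert] at hz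
                obtain ⟨c, u, hu, rfl⟩ := hz
                rw [hg.inv u hu, eval_smul_homog hg.hom, hg0 x (hT' hxT') hxT (Finset.notMem_empty x),
                  mul_zero]
            · apply mul_eq_zero_of_left
              exact hFV T' hT' hTT' z hz
        | insert x R hxR ihR =>
          intro hRD g hg hg0
          have hxD : x ∈ dirs Z := hRD (Finset.mem_insert_self _ _)
          have hRD' : R ⊆ dirs Z := fun y hy => hRD (Finset.mem_insert_of_mem hy)
          by_cases hxT : x ∈ spn T
          · refine ihR hRD' g hg ?_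
            intro y hy hyT hyR
            refine hg0 y hy hyT ?_
            rw [Finset.mem_insert, not_or]
            refine ⟨?_, hyR⟩
            rintro rfl
            exact hyT hxT
          · obtain ⟨φ, hφ, hφ1, hφV⟩ := exists_sep (dirs Z) T x hxT hq
            have hφB := hcon x hxD hxT φ hφ hφ1 hφV
            have h1 : B p e A (F * (g - C (eval x g) * φ)) = 0 := by
              refine ihR hRD' _ ⟨?_, ?_⟩ ?_
              · have h2 := (isHomogeneous_C (Fin (m + 1)) (eval x g)).mul hφ.hom
                rw [zero_add] at h2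
                exact hg.hom.sub h2
              · intro u hu z
                rw [map_sub, map_sub, map_mul, map_mul, eval_C, eval_C, hg.inv u hu z,
                  hφ.inv u hu z]
              · intro y hy hyT hyR
                rw [map_sub, map_mul, eval_C]
                by_cases hyx : y ∈ spn (insert x T)
                · rw [spn, Finset.coe_insert, Submodule.mem_span_insert] at hyx
                  obtain ⟨c, u, hu, rfl⟩ := hyx
                  rw [hg.inv u hu, hφ.inv u hu, eval_smul_homog hg.hom, eval_smul_homog hφ.hom, hφ1]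
                  ring
                · have hyne : y ≠ x := by
                    rintro rfl
                    exact hyx (mem_spn_insert _ _)
                  have h3 : eval y g = 0 := by
                    refine hg0 y hy hyT ?_
                    rw [Finset.mem_insert, not_or]
                    exact ⟨hyne, hyR⟩
                  have h4 : x ∉ spn (insert y T) := by
                    intro hx
                    rw [spn, Finset.coe_insert] at hx hyx
                    exact hyx (mem_span_insert_exchange hx hxT)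
                  have h5 : eval y φ = 0 := by
                    refine hφV (insert y T) ?_ (spn_le_insert _ _) h4 y (mem_spn_insert _ _)
                    intro z hz
                    rcases Finset.mem_insert.1 hz with rfl | hz
                    · exact hy
                    · exact hTD hz
                  rw [h3, h5, mul_zero, sub_zero]
            have h2 : F * g = F * (g - C (eval x g) * φ) + C (eval x g) * (F * φ) := by ring
            rw [h2, B_add, h1, B_C_mul, hφB, mul_zero, add_zero]
      refine hyB ?_
      rw [mul_comm]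
      refine key (dirs Z) subset_rfl (linP l ^ (p ^ e)) ⟨?_, ?_⟩ ?_
      · have := (linP_homog l).pow (p ^ e)
        rwa [one_mul] at this
      · intro u hu z
        rw [map_pow, map_pow, eval_linP, eval_linP, map_add, LinearMap.mem_ker.1 (hlT hu), add_zero]
      · intro y hy _ hy'
        exact absurd hy hy'
    -- the new flag
    refine ⟨insert x T, ?_, ?_, F * φ, ?_, hφB, ?_⟩
    · intro z hz
      rcases Finset.mem_insert.1 hz with rfl | hz
      · exact hxD
      · exact hTD hz
    · have h1 := finrank_insert_le T x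
      have h2 : Module.finrank k (spn T) < Module.finrank k (spn (insert x T)) := by
        apply Submodule.finrank_lt_finrank_of_lt
        refine lt_of_le_of_ne (spn_le_insert _ _) ?_
        intro heq
        exact hxT (heq ▸ mem_spn_insert T x)
      omega
    · have := hFh.mul hφ.hom
      rwa [show p ^ e * t + p ^ e = p ^ e * (t + 1) by ring] at this
    · intro T' hT' hnot z hz
      rw [map_mul]
      by_cases hTT' : spn T ≤ spn T'
      · apply mul_eq_zero_of_right
        refine hφV T' hT' hTT' ?_ z hz
        intro hx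
        apply hnot
        rw [spn, Finset.coe_insert, Submodule.span_le]
        rintro y (rfl | hy)
        · exact hx
        · exact hTT' (Submodule.subset_span hy)
      · apply mul_eq_zero_of_left
        exact hFV T' hT' hTT' z hz

/-- **The exact form.** -/
theorem Dat.exact (h : Dat k p e m a Z A) (hq : 2 ^ (dirs Z).card ≤ p ^ e) :
    ∃ X : MvPolynomial (Fin (m + 1 + 1)) k, X ≠ 0 ∧ X.IsHomogeneous (a - 1 + (m + 1)) ∧
      X ∈ mI (e0 k (m + 1)) ^ (m + 1) ∧ ∀ w ∈ Z, X ∈ mI w ^ (m + 1) := by
  have hqp : 0 < p ^ e := pow_pos (Fact.out : p.Prime).pos e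
  obtain ⟨T, hTD, hTt, F, hFh, hFB, hFV⟩ := h.flag hq (m + 1) le_rfl
  have htop : spn T = ⊤ := by
    apply Submodule.eq_top_of_finrank_eq
    rw [hTt, Module.finrank_fin_fun]
  obtain ⟨X, hX0, hXh, hX, hXe⟩ := h.root F (m + 1) hFh hFB
  refine ⟨X, hX0, hXh, hXe, ?_⟩
  intro w hw
  apply mem_of_pow_mem w (p ^ e) m X hX0
  rw [← hX]
  rcases Nat.eq_zero_or_pos m with rfl | hm
  · refine mem_mI_mono w (h.mem w hw F _ 0 hFh ?_) (by omega)
    rw [pow_zero, Ideal.one_eq_top]
    trivial
  · refine h.van_at w hw m hm (m + 1) (by omega) F hFh ?_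
    intro T' hT' _ hT't
    apply hFV T' hT'
    intro hcon
    rw [htop, top_le_iff] at hcon
    rw [hcon, finrank_top, Module.finrank_fin_fun] at hT't
    omega

end

end Pool.Agent.W5h91.WL
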