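import Pool.Agent.H580C.CH.All

/-!
The top derivative of forms which are polynomials in `x_0 ^ q`, `x_1`, …, `x_n`.
-/

set_option autoImplicit false

universe u

namespace Pool.Agent.W5h91.WL

open MvPolynomial Pool.Agent.Chud Pool.Agent.H580C

section

variable {k : Type u} [Field k]

/-- derivatives in `x_0` of polynomials in `x_0 ^ q` -/
theorem hd_eq_zero_of_dvd (p e n : ℕ) [Fact p.Prime] [CharP k p]
    (G : MvPolynomial (Fin (n + 1)) k) (hG : DvdE (p ^ e) {0} G) (b : Fin (n + 1) →₀ ℕ)
    (hb : ∀ i, b i < p ^ e) (hb0 : b 0 ≠ 0) : hd b G = 0 := by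
  classical
  rw [← MvPolynomial.support_sum_monomial_coeff G, map_sum]
  refine Finset.sum_eq_zero fun m hm => ?_
  obtain ⟨j, hj⟩ := hG m hm 0 rfl
  have h1 : (monomial m (coeff m G) : MvPolynomial (Fin (n + 1)) k) =
      (X 0 ^ j) ^ (p ^ e) * monomial (m.erase 0) (coeff m G) := by
    rw [← pow_mul, X_pow_eq_monomial, monomial_mul, one_mul, mul_comm j, ← hj]
    congr 1
    rw [Finsupp.single_add_erase]
  rw [h1, t_HP k p e (n + 1) b _ _ hb]
  have h2 : hd b (monomial (m.erase 0) (coeff m G) : MvPolynomial (Fin (n + 1)) k) = 0 := by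
    ext m'
    rw [t_HC, coeff_monomial, if_neg, mul_zero, coeff_zero]
    intro h
    have := DFunLike.congr_fun h 0
    rw [Finsupp.erase_same, Finsupp.add_apply] at this
    omega
  rw [h2, mul_zero]

theorem topI_zero (n c : ℕ) : topI n c 0 = 0 := by simp [topI]

theorem topI_succ (n c : ℕ) (i : Fin (n + 1)) (hi : i ≠ 0) : topI n c i = c := by simp [topI, hi]

theorem topI_lt (n q : ℕ) (hq : 0 < q) (i : Fin (n + 1)) : topI n (q - 1) i < q := by
  by_cases hi : i = 0
  · rw [hi, topI_zero]; exact hq
  · rw [topI_succ _ _ _ hi]; omega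

/-- the top derivative is a `q`-th power -/
theorem top_dvd (p e n : ℕ) [Fact p.Prime] [CharP k p]
    (G : MvPolynomial (Fin (n + 1)) k) (hG : DvdE (p ^ e) {0} G) :
    DvdE (p ^ e) Set.univ (hd (topI n (p ^ e - 1)) G) := by
  have hp : p.Prime := Fact.out
  have hq : 0 < p ^ e := pow_pos hp.pos e
  refine p_KD k p e (n + 1) _ _ ?_
  intro c hc hcq _
  rw [p_HX]
  by_cases h0 : c 0 = 0
  · obtain ⟨i, hi⟩ : ∃ i, c i ≠ 0 := by
      by_contra hcon
      push Not at hcon
      exact hc (Finsupp.ext hcon)
    have hi0 : i ≠ 0 := by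
      rintro rfl
      exact hi h0
    have h1 : p ∣ (topI n (p ^ e - 1) i + c i).choose (c i) := by
      refine (t_LU p hp e).1 _ (c i) (topI_lt n _ hq i) (hcq i) ?_
      rw [topI_succ _ _ _ hi0]; omega
    have h2 : p ∣ ∏ i, (topI n (p ^ e - 1) i + c i).choose (c i) :=
      h1.trans (Finset.dvd_prod_of_mem _ (Finset.mem_univ i))
    rw [(CharP.cast_eq_zero_iff k p _).mpr h2, C_0, zero_mul]
  · have h1 : hd (topI n (p ^ e - 1)) (hd c G) = 0 := by
      rw [hd_eq_zero_of_dvd p e n G hG c hcq h0, map_zero]
    rw [p_HX] at h1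
    rw [add_comm (topI n (p ^ e - 1)) c]
    rcases mul_eq_zero.1 h1 with h2 | h2
    · have h3 : (∏ i, (c i + topI n (p ^ e - 1) i).choose (topI n (p ^ e - 1) i) : ℕ) =
          ∏ i, (topI n (p ^ e - 1) i + c i).choose (c i) := by
        refine Finset.prod_congr rfl fun i _ => ?_
        rw [add_comm (c i), Nat.choose_symm_add]
      rw [h3] at h2
      rw [h2, zero_mul]
    · rw [h2, mul_zero]

/-- expansion of the directional derivatives -/
theorem dir_coeff (N : ℕ) (v : Fin N → k) (F : MvPolynomial (Fin N) k) (j : ℕ) :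
    (dir v F).coeff j = ∑ b ∈ (Finset.univ : Finset (Fin N)).finsuppAntidiag j,
      C (∏ i, v i ^ b i) * hd b F := by
  classical
  -- `dir v` is `taylor` followed by `y ↦ t v`
  set φ : MvPolynomial (Fin N) (MvPolynomial (Fin N) k) →ₐ[MvPolynomial (Fin N) k]
    Polynomial (MvPolynomial (Fin N) k) :=
    aeval (fun i => Polynomial.C (C (v i)) * Polynomial.X) with hφ
  have h1 : dir v F = φ (taylor F) := by
    have h : (dir v : MvPolynomial (Fin N) k →ₐ[k] _) =
        (φ.restrictScalars k).comp (taylor (k := k) (σ := Fin N)) := by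
      apply MvPolynomial.algHom_ext
      intro i
      simp only [dir, taylor, AlgHom.comp_apply, aeval_X, AlgHom.restrictScalars_apply, map_add,
        hφ, aeval_C]
      rfl
    rw [h]; rfl
  have h2 : ∀ b : Fin N →₀ ℕ, φ (monomial b (coeff b (taylor F))) =
      Polynomial.C (C (∏ i, v i ^ b i) * hd b F) * Polynomial.X ^ b.degree := by
    intro b
    rw [hφ, aeval_monomial, Finsupp.prod_fintype _ _ (fun i => pow_zero _)]
    simp only [mul_pow, Finset.prod_mul_distrib, Finset.prod_pow_eq_pow_sum]
    rw [← Finsupp.degree_eq_sum, Polynomial.algebraMap_eq, ← hd_apply, ← mul_assoc]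
    congr 1
    rw [mul_comm, Polynomial.C_mul, map_prod, map_prod]
    simp only [map_pow]
  rw [h1]
  conv_lhs => rw [(taylor F).as_sum, map_sum, Polynomial.finsetSum_coeff]
  have h3 : ∀ b : Fin N →₀ ℕ, (φ (monomial b (coeff b (taylor F)))).coeff j =
      if b.degree = j then C (∏ i, v i ^ b i) * hd b F else 0 := by
    intro b
    rw [h2, Polynomial.coeff_C_mul, Polynomial.coeff_X_pow]
    by_cases h : b.degree = j
    · rw [if_pos h, if_pos h.symm, mul_one]
    · rw [if_neg h, if_neg (Ne.symm h), mul_zero]
  rw [Finset.sum_congr rfl (fun b _ => h3 b), ← Finset.sum_filter]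
  refine Finset.sum_subset ?_ ?_
  · intro b hb
    rw [TR_mem_anti]
    exact (Finset.mem_filter.1 hb).2
  · intro b hb hb'
    rw [TR_mem_anti] at hb
    have h4 : b ∉ (taylor F).support := fun h => hb' (Finset.mem_filter.2 ⟨h, hb⟩)
    rw [notMem_support_iff, ← hd_apply] at h4
    rw [h4, mul_zero]

/-- directional derivatives in the direction of the point do not lower the order of a form -/
theorem dir_coeff_mem (n d m j : ℕ) (v : Fin (n + 1) → k) (hv : v ≠ 0)
    (F : MvPolynomial (Fin (n + 1)) k) (hF : F.IsHomogeneous d) (hm : F ∈ mI v ^ m) :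
    (dir v F).coeff j ∈ mI v ^ m := by
  classical
  obtain ⟨f, hf⟩ := t_CE k n v hv
  obtain ⟨inj, hom, -, ord, dr, -⟩ := t_SU k (n + 1) f
  obtain ⟨-, -, -, ord', -, inv⟩ := t_SU k (n + 1) f.symm
  rw [← hf] at hm ⊢
  rw [← ord, ← dr]
  rw [← ord] at hm
  set G := sub f F with hG
  have hGh := hom F d hF
  rw [← hG] at hGh
  have h1 : (dir (e0 k n) G).coeff j = hd (Finsupp.single 0 j) G := by
    rw [dir_coeff, Finset.sum_eq_single (Finsupp.single 0 j)]
    · have : (∏ i, (e0 k n) i ^ (Finsupp.single (0 : Fin (n + 1)) j) i : k) = 1 := by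
        refine Finset.prod_eq_one fun i _ => ?_
        by_cases hi : i = 0
        · subst hi; simp [e0]
        · rw [Finsupp.single_eq_of_ne hi, pow_zero]
      rw [this, C_1, one_mul]
    · intro b hb hne
      rw [TR_mem_anti] at hb
      have : ∃ i, i ≠ 0 ∧ b i ≠ 0 := by
        by_contra hcon
        push Not at hcon
        apply hne
        ext i
        by_cases hi : i = 0
        · subst hi
          rw [Finsupp.single_eq_same, ← hb, TR_degree, Fin.sum_univ_succ]
          rw [Finset.sum_eq_zero (fun i _ => hcon i.succ (Fin.succ_ne_zero i)), add_zero]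
        · rw [Finsupp.single_eq_of_ne hi, hcon i hi]
      obtain ⟨i, hi, hbi⟩ := this
      have : (∏ i, (e0 k n) i ^ b i : k) = 0 := by
        refine Finset.prod_eq_zero (Finset.mem_univ i) ?_
        rw [show e0 k n i = 0 from Pi.single_eq_of_ne hi 1, zero_pow hbi]
      rw [this, C_0, zero_mul]
    · intro h
      exact absurd ((TR_mem_anti _ _).2 (by simp)) h
  rw [h1]
  by_cases hjd : j ≤ d
  · have h2 : (hd (Finsupp.single 0 j) G).IsHomogeneous (d - j) := by
      have := p_HH k (n + 1) (Finsupp.single 0 j) d G hGh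
      simpa using this
    rw [t_OE k n (d - j) m _ h2]
    intro c hc
    rw [mem_support_iff, t_HC] at hc
    have h3 := (t_OE k n d m G hGh).1 hm (c + Finsupp.single 0 j)
      (mem_support_iff.2 (right_ne_zero_of_mul hc))
    rw [Finsupp.add_apply, Finsupp.single_eq_same] at h3
    omega
  · have : hd (Finsupp.single 0 j) G = 0 := by
      ext c
      rw [t_HC, coeff_zero]
      by_contra hne
      have h4 := hGh (right_ne_zero_of_mul hne)
      have h5 : (c + Finsupp.single 0 j).degree = d := by
        rw [Finsupp.degree_eq_weight_one]; exact h4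
      rw [map_add, Finsupp.degree_single] at h5
      omega
    rw [this]
    exact Ideal.zero_mem _

/-- the order of the top derivative -/
theorem top_mem (p e n d m : ℕ) [Fact p.Prime] [CharP k p] (w : Fin (n + 1) → k)
    (i₀ : Fin (n + 1)) (hi₀ : i₀ ≠ 0) (hw : w i₀ ≠ 0)
    (G : MvPolynomial (Fin (n + 1)) k) (hG : DvdE (p ^ e) {0} G) (hGh : G.IsHomogeneous d)
    (hm : G ∈ mI w ^ m) :
    hd (topI n (p ^ e - 1)) G ∈ mI w ^ (m - (n - 1) * (p ^ e - 1)) := by
  classical
  have hp : p.Prime := Fact.out
  have hq : 0 < p ^ e := pow_pos hp.pos e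
  set q := p ^ e with hqdef
  set b'' := (topI n (q - 1)).erase i₀ with hb''
  have hw0 : w ≠ 0 := by
    rintro rfl
    exact hw rfl
  have hdeg : b''.degree = (n - 1) * (q - 1) := by
    have h1 : (topI n (q - 1)).degree = n * (q - 1) := TS_deg n (q - 1)
    have h2 : Finsupp.single i₀ (topI n (q - 1) i₀) + b'' = topI n (q - 1) :=
      Finsupp.single_add_erase _ _
    have h3 := congrArg Finsupp.degree h2
    rw [map_add, Finsupp.degree_single, h1, topI_succ _ _ _ hi₀] at h3
    have hn : 1 ≤ n := by
      rcases Nat.eq_zero_or_pos n with h | h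
      · subst h
        exact absurd (Fin.ext (by omega)) hi₀
      · exact h
    obtain ⟨n', rfl⟩ : ∃ n', n = n' + 1 := ⟨n - 1, by omega⟩
    rw [Nat.add_sub_cancel]
    have h4 : (n' + 1) * (q - 1) = n' * (q - 1) + (q - 1) := by ring
    omega
  have h1 : hd b'' ((dir w G).coeff (q - 1)) ∈ mI w ^ (m - (n - 1) * (q - 1)) := by
    have := t_HM k (n + 1) b'' w m _ (dir_coeff_mem n d m (q - 1) w hw0 G hGh hm)
    rwa [hdeg] at this
  have h2 : hd b'' ((dir w G).coeff (q - 1)) =
      C (w i₀ ^ (q - 1)) * hd (topI n (q - 1)) G := by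
    rw [dir_coeff, map_sum, Finset.sum_eq_single (Finsupp.single i₀ (q - 1))]
    · have e1 : (∏ i, w i ^ (Finsupp.single i₀ (q - 1)) i : k) = w i₀ ^ (q - 1) := by
        rw [Finset.prod_eq_single i₀]
        · rw [Finsupp.single_eq_same]
        · intro i _ hi
          rw [Finsupp.single_eq_of_ne hi, pow_zero]
        · intro h; exact absurd (Finset.mem_univ _) h
      rw [e1, ← smul_eq_C_mul, map_smul, smul_eq_C_mul, p_HX]
      have e2 : (∏ i, ((Finsupp.single i₀ (q - 1)) i + b'' i).choose (b'' i) : ℕ) = 1 := by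
        refine Finset.prod_eq_one fun i _ => ?_
        by_cases hi : i = i₀
        · subst hi
          rw [hb'', Finsupp.erase_same, Nat.choose_zero_right]
        · rw [Finsupp.single_eq_of_ne hi, zero_add, Nat.choose_self]
      rw [e2, Nat.cast_one, C_1, one_mul]
      have := Finsupp.single_add_erase i₀ (topI n (q - 1))
      rw [topI_succ _ _ _ hi₀] at this
      rw [hb'', this]
    · intro b hb hne
      rw [TR_mem_anti] at hb
      rw [← smul_eq_C_mul, map_smul, p_HX]
      have hble : ∀ i, b i ≤ q - 1 := by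
        intro i
        rw [← hb, TR_degree]
        exact Finset.single_le_sum (f := fun i => b i) (fun _ _ => Nat.zero_le _)
          (Finset.mem_univ i)
      by_cases hex : ∃ i, i ≠ 0 ∧ i ≠ i₀ ∧ b i ≠ 0
      · obtain ⟨i, hi, hii, hbi⟩ := hex
        have e1 : b'' i = q - 1 := by
          rw [hb'', Finsupp.erase_ne hii, topI_succ _ _ _ hi]
        have h1 : p ∣ (b i + b'' i).choose (b'' i) := by
          refine (t_LU p hp e).1 _ _ ?_ ?_ ?_
          · have := hble i
            change b i < q
            omega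
          · rw [e1]
            change q - 1 < q
            omega
          · rw [e1]
            change q ≤ _
            omega
        have h2 : p ∣ ∏ i, (b i + b'' i).choose (b'' i) :=
          h1.trans (Finset.dvd_prod_of_mem _ (Finset.mem_univ i))
        rw [(CharP.cast_eq_zero_iff k p _).mpr h2, C_0, zero_mul, smul_zero]
      · push Not at hex
        have h0 : b 0 ≠ 0 := by
          intro h0
          apply hne
          have h3 : ∀ i, i ≠ i₀ → b i = 0 := by
            intro i hi
            by_cases hi0 : i = 0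
            · rw [hi0, h0]
            · exact hex i hi0 hi
          ext i
          by_cases hi : i = i₀
          · subst hi
            rw [Finsupp.single_eq_same, ← hb, TR_degree, Finset.sum_eq_single i]
            · intro j _ hj
              exact h3 j hj
            · intro h; exact absurd (Finset.mem_univ _) h
          · rw [Finsupp.single_eq_of_ne hi, h3 i hi]
        rw [hd_eq_zero_of_dvd p e n G hG (b + b'') ?_ ?_, mul_zero, smul_zero]
        · intro i
          rw [Finsupp.add_apply]
          by_cases hi : i = i₀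
          · subst hi
            rw [hb'', Finsupp.erase_same, add_zero]
            have := hble i
            change b i < q
            omega
          · rw [hb'', Finsupp.erase_ne hi]
            by_cases hi0 : i = 0
            · subst hi0
              rw [topI_zero]
              have := hble 0
              change b 0 + 0 < q
              omega
            · rw [topI_succ _ _ _ hi0, hex i hi0 hi, zero_add]
              change q - 1 < q
              omega
        · rw [Finsupp.add_apply]
          omega
    · intro h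
      exact absurd ((TR_mem_anti _ _).2 (Finsupp.degree_single _ _)) h
  rw [h2] at h1
  have h3 := Ideal.mul_mem_left (mI w ^ (m - (n - 1) * (q - 1))) (C ((w i₀ ^ (q - 1))⁻¹)) h1
  rw [← mul_assoc, ← C_mul, inv_mul_cancel₀ (pow_ne_zero _ hw), C_1, one_mul] at h3
  exact h3

end

end Pool.Agent.W5h91.WL
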