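import Pool.Agent.W5h91.WL.BOp

/-!
Vanishing of `B f` for polynomials `f` which vanish on flats.
-/

set_option autoImplicit false

universe u

namespace Pool.Agent.W5h91.WL

open MvPolynomial Pool.Agent.Chud Pool.Agent.H580C

section

variable {k : Type u} [Field k]

open Classical in
/-- the directions of the points -/
noncomputable def dirs {m : ℕ} (Z : Finset (Fin (m + 1 + 1) → k)) : Finset (Fin (m + 1) → k) :=
  Z.image Fin.tail

/-- the span of a finite set of vectors -/
noncomputable abbrev spn {N : ℕ} (T : Finset (Fin N → k)) : Submodule k (Fin N → k) :=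
  Submodule.span k (T : Set (Fin N → k))

/-- `f` vanishes on the submodule `U` -/
def VanOn {N : ℕ} (f : MvPolynomial (Fin N) k) (U : Submodule k (Fin N → k)) : Prop :=
  ∀ x ∈ U, eval x f = 0

theorem finrank_insert_le {N : ℕ} [DecidableEq (Fin N → k)] (T : Finset (Fin N → k))
    (w : Fin N → k) : Module.finrank k (spn (insert w T)) ≤ Module.finrank k (spn T) + 1 := by
  have h1 : spn (insert w T) = Submodule.span k {w} ⊔ spn T := by
    rw [spn, spn, Finset.coe_insert, Submodule.span_insert]
  rw [h1]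
  have h2 := Submodule.finrank_add_le_finrank_add_finrank (Submodule.span k {w}) (spn T)
  have h3 : Module.finrank k (Submodule.span k {w}) ≤ 1 := by
    have := finrank_span_le_card (R := k) ({w} : Set (Fin N → k))
    simpa using this
  omega

theorem spn_le_insert {N : ℕ} [DecidableEq (Fin N → k)] (T : Finset (Fin N → k))
    (w : Fin N → k) : spn T ≤ spn (insert w T) := by
  apply Submodule.span_mono
  rw [Finset.coe_insert]
  exact Set.subset_insert _ _

theorem mem_spn_insert {N : ℕ} [DecidableEq (Fin N → k)] (T : Finset (Fin N → k))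
    (w : Fin N → k) : w ∈ spn (insert w T) :=
  Submodule.subset_span (by rw [Finset.coe_insert]; exact Set.mem_insert _ _)

variable {p e m a : ℕ} [Fact p.Prime] [CharP k p] [IsAlgClosed k]
  {Z : Finset (Fin (m + 1 + 1) → k)} {A : MvPolynomial (Fin (m + 1 + 1)) k}

/-- if `f` vanishes on the flats of dimension at most `t` then `B f = 0` -/
theorem Dat.van (h : Dat k p e m a Z A) : ∀ (t : ℕ) (f : MvPolynomial (Fin (m + 1)) k),
    f.IsHomogeneous (p ^ e * t) →
    (∀ T ⊆ dirs Z, Module.finrank k (spn T) ≤ t → VanOn f (spn T)) → B p e A f = 0 := by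
  classical
  have hinf : Infinite k := IsAlgClosed.instInfinite
  intro t
  induction t with
  | zero =>
    intro f hf hV
    rw [mul_zero] at hf
    have h1 : f = C (coeff 0 f) := by
      rw [← totalDegree_eq_zero_iff_eq_C]
      exact Nat.le_zero.1 hf.totalDegree_le
    have h2 := hV ∅ (Finset.empty_subset _) (by simp) 0 (Submodule.zero_mem _)
    rw [h1, eval_C] at h2
    rw [h1, h2, C_0, B_zero]
  | succ t ih =>
    intro f hf hV
    by_contra hB
    obtain ⟨X, hX0, hXh, hX, hXe⟩ := h.root f (t + 1) hf hB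
    apply hX0
    refine rigid p (m + 1) a (e0 k (m + 1)) (Z : Set (Fin (m + 1 + 1) → k)) h.ha h.low (t + 1)
      (by omega) X hXh ?_ hXe
    intro w hw
    apply mem_of_pow_mem w (p ^ e) (t + 1) X hX0
    rw [← hX]
    obtain ⟨y, f₁, f₂, -, hf12, hf₁, hf₂, hf₂w, hU⟩ := split m (p ^ e) t (Fin.tail w) (h.tl w hw) f hf
    rw [hf12, B_add, B_pow_mul]
    have hB1 : B p e A f₁ = 0 := by
      apply ih f₁ hf₁
      intro T hT hTf x hx
      refine hU (spn (insert (Fin.tail w) T)) (mem_spn_insert _ _) ?_ x (spn_le_insert _ _ hx)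
      apply hV
      · intro y hy
        rcases Finset.mem_insert.1 hy with rfl | hy
        · exact Finset.mem_image_of_mem _ hw
        · exact hT hy
      · exact (finrank_insert_le T (Fin.tail w)).trans (by omega)
    rw [hB1, mul_zero, zero_add]
    refine mem_mI_mono w (h.mem w hw f₂ _ _ hf₂ hf₂w) (le_of_eq ?_)
    ring

/-- the order of `B f` at `w` if `f` vanishes on the flats through `w` of dimension at most `j` -/
theorem Dat.van_at (h : Dat k p e m a Z A) (w : Fin (m + 1 + 1) → k) (hw : w ∈ Z) (j : ℕ)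
    (hj : 1 ≤ j) : ∀ (t : ℕ), j ≤ t → ∀ f : MvPolynomial (Fin (m + 1)) k,
    f.IsHomogeneous (p ^ e * t) →
    (∀ T ⊆ dirs Z, Fin.tail w ∈ spn T → Module.finrank k (spn T) ≤ j → VanOn f (spn T)) →
    B p e A f ∈ mI w ^ (p ^ e * j + 1) := by
  classical
  have hinf : Infinite k := IsAlgClosed.instInfinite
  intro t ht
  induction t, ht using Nat.le_induction with
  | base =>
    intro f hf hV
    obtain ⟨i, rfl⟩ : ∃ i, j = i + 1 := ⟨j - 1, by omega⟩
    obtain ⟨y, f₁, f₂, -, hf12, hf₁, hf₂, hf₂w, hU⟩ := split m (p ^ e) i (Fin.tail w) (h.tl w hw) f hf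
    rw [hf12, B_add, B_pow_mul]
    have hB1 : B p e A f₁ = 0 := by
      apply h.van i f₁ hf₁
      intro T hT hTf x hx
      refine hU (spn (insert (Fin.tail w) T)) (mem_spn_insert _ _) ?_ x (spn_le_insert _ _ hx)
      apply hV
      · intro y hy
        rcases Finset.mem_insert.1 hy with rfl | hy
        · exact Finset.mem_image_of_mem _ hw
        · exact hT hy
      · exact mem_spn_insert _ _
      · exact (finrank_insert_le T (Fin.tail w)).trans (by omega)
    rw [hB1, mul_zero, zero_add]
    refine mem_mI_mono w (h.mem w hw f₂ _ _ hf₂ hf₂w) (le_of_eq ?_)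
    ring
  | succ t ht ih =>
    intro f hf hV
    obtain ⟨y, f₁, f₂, -, hf12, hf₁, hf₂, hf₂w, hU⟩ := split m (p ^ e) t (Fin.tail w) (h.tl w hw) f hf
    rw [hf12, B_add, B_pow_mul]
    refine Ideal.add_mem _ (Ideal.mul_mem_left _ _ (ih f₁ hf₁ ?_)) ?_
    · intro T hT hwT hTf x hx
      exact hU (spn T) hwT (hV T hT hwT hTf) x hx
    · refine mem_mI_mono w (h.mem w hw f₂ _ _ hf₂ hf₂w) ?_
      have : p ^ e * j ≤ p ^ e * t := Nat.mul_le_mul_left _ ht
      omega

end

end Pool.Agent.W5h91.WL
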