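import Pool.Agent.W5h91.WL.Core

/-!
The exact form in characteristic zero.
-/

set_option autoImplicit false

universe u v

namespace Pool.Agent.W5h91.WL

open MvPolynomial Pool.Agent.Chud Pool.Agent.H580C

/-- transfer of `LowT` -/
theorem low_transfer (K : Type u) [Field K] (n t a : ℕ) (Z : Finset (Fin (n + 1) → K))
    (hLow : LowT (Z : Set (Fin (n + 1) → K)) t a) :
    ∃ T : Finset K, ∀ (A : Subring K), (∀ x ∈ T, x ∈ A) →
      ∀ (k : Type v) [Field k] (ψ : A →+* k) (Z' : Set (Fin (n + 1) → k)),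
      (∀ v ∈ Z, ∃ h : ∀ i, v i ∈ A, (fun i => ψ ⟨v i, h i⟩) ∈ Z') → LowT Z' t a := by
  classical
  choose! lam hlam using p_TI K n t a Z hLow
  refine ⟨(Finset.range a).biUnion fun d =>
      ((Finset.univ : Finset (Fin (n + 1))).finsuppAntidiag d).biUnion fun m =>
        Z.biUnion fun v => (bx (n + 1) t).image fun b => lam d m v b, ?_⟩
  intro A hTA k _ ψ Z' hZ'
  have m1 : ∀ d < a, ∀ m : Fin (n + 1) →₀ ℕ, m.degree = d → ∀ v ∈ Z, ∀ b ∈ bx (n + 1) t,
      lam d m v b ∈ A := by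
    intro d hd m hm v hv b hb
    apply hTA
    refine Finset.mem_biUnion.2 ⟨d, Finset.mem_range.2 hd, ?_⟩
    refine Finset.mem_biUnion.2 ⟨m, (TR_mem_anti _ _).2 hm, ?_⟩
    exact Finset.mem_biUnion.2 ⟨v, hv, Finset.mem_image.2 ⟨b, hb, rfl⟩⟩
  have m2 : ∀ v ∈ Z, ∀ i, v i ∈ A := by
    intro v hv i
    exact (hZ' v hv).1 i
  intro G d' hG0 hG hv
  by_contra hlt
  push Not at hlt
  apply hG0
  ext m
  rw [coeff_zero]
  by_cases hm : m.degree = d'
  swap
  · exact hG.coeff_eq_zero hm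
  -- the images of the data
  have key : ∀ m' : Fin (n + 1) →₀ ℕ, m'.degree = d' →
      ∑ v ∈ Z.attach, ∑ b ∈ (bx (n + 1) t).attach,
        ψ ⟨lam d' m v.1 b.1, m1 d' hlt m hm v.1 v.2 b.1 b.2⟩ *
          (((∏ i, (m' i).choose (b.1 i) : ℕ) : k) *
            ∏ i, ψ ⟨v.1 i, m2 v.1 v.2 i⟩ ^ (m' i - b.1 i)) =
      if m = m' then 1 else 0 := by
    intro m' hm'
    have h := hlam d' hlt m m' hm hm'
    have hA' : ∑ v ∈ Z.attach, ∑ b ∈ (bx (n + 1) t).attach,
        (⟨lam d' m v.1 b.1, m1 d' hlt m hm v.1 v.2 b.1 b.2⟩ : A) *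
          (((∏ i, (m' i).choose (b.1 i) : ℕ) : A) *
            ∏ i, (⟨v.1 i, m2 v.1 v.2 i⟩ : A) ^ (m' i - b.1 i)) =
        if m = m' then 1 else 0 := by
      apply Subtype.ext
      have e1 : ((if m = m' then 1 else 0 : A) : K) = if m = m' then 1 else 0 := by
        split_ifs <;> rfl
      rw [e1, ← h]
      rw [← Finset.sum_attach Z]
      push_cast
      refine Finset.sum_congr rfl fun v _ => ?_
      rw [← Finset.sum_attach (bx (n + 1) t)]
    have h3 := congrArg ψ hA'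
    rw [map_sum] at h3
    have e2 : ψ (if m = m' then 1 else 0) = if m = m' then 1 else 0 := by
      split_ifs
      · exact map_one ψ
      · exact map_zero ψ
    rw [e2] at h3
    rw [← h3]
    refine Finset.sum_congr rfl fun v _ => ?_
    rw [map_sum]
    refine Finset.sum_congr rfl fun b _ => ?_
    rw [map_mul, map_mul, map_natCast, map_prod]
    simp only [map_pow]
  have hsum : coeff m G = ∑ m' ∈ (Finset.univ : Finset (Fin (n + 1))).finsuppAntidiag d',
      (if m = m' then 1 else 0) * coeff m' G := by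
    rw [Finset.sum_eq_single m]
    · rw [if_pos rfl, one_mul]
    · intro m' _ hne
      rw [if_neg (Ne.symm hne), zero_mul]
    · intro h
      exact absurd ((TR_mem_anti _ _).2 hm) h
  rw [hsum]
  have h4 : ∀ m' ∈ (Finset.univ : Finset (Fin (n + 1))).finsuppAntidiag d',
      ((if m = m' then 1 else 0 : k)) * coeff m' G =
      ∑ v ∈ Z.attach, ∑ b ∈ (bx (n + 1) t).attach,
        ψ ⟨lam d' m v.1 b.1, m1 d' hlt m hm v.1 v.2 b.1 b.2⟩ *
          ((((∏ i, (m' i).choose (b.1 i) : ℕ) : k) *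
            ∏ i, ψ ⟨v.1 i, m2 v.1 v.2 i⟩ ^ (m' i - b.1 i)) * coeff m' G) := by
    intro m' hm'
    rw [← key m' ((TR_mem_anti _ _).1 hm'), Finset.sum_mul]
    refine Finset.sum_congr rfl fun v _ => ?_
    rw [Finset.sum_mul]
    refine Finset.sum_congr rfl fun b _ => ?_
    rw [mul_assoc]
  rw [Finset.sum_congr rfl h4, Finset.sum_comm]
  refine Finset.sum_eq_zero fun v _ => ?_
  rw [Finset.sum_comm]
  refine Finset.sum_eq_zero fun b _ => ?_
  rw [← Finset.mul_sum]
  obtain ⟨hv1, hv2⟩ := hZ' v.1 v.2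
  have h5 := TR_eval_hd t_HC k (n + 1) b.1 (fun i => ψ ⟨v.1 i, m2 v.1 v.2 i⟩) G d' hG
  rw [← h5]
  have h6 := ((t_HV k (n + 1) (fun i => ψ ⟨v.1 i, m2 v.1 v.2 i⟩) G).2 t).1 (hv _ hv2) b.1
    ((TR_mem_bx _ _).1 b.2)
  rw [h6, mul_zero]

/-- valuation rings dominating a local ring -/
theorem exists_val (K : Type u) [Field K] (A : Subring K) (k₀ : Type v) [Field k₀]
    (φ : A →+* k₀) (p : ℕ) (hp : (p : k₀) = 0) :
    ∃ O : ValuationSubring K, (∀ x ∈ A, x ∈ O) ∧ ¬ IsUnit ((p : ℕ) : O) := by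
  set P : Ideal A := RingHom.ker φ with hP
  have hPp : P.IsPrime := RingHom.ker_isPrime φ
  have hunit : ∀ y : P.primeCompl, IsUnit (A.subtype y) := by
    rintro ⟨y, hy⟩
    rw [isUnit_iff_ne_zero]
    intro h0
    apply hy
    have : y = 0 := Subtype.ext h0
    rw [this]
    exact P.zero_mem
  let f : Localization.AtPrime P →+* K := IsLocalization.lift (M := P.primeCompl) hunit
  obtain ⟨O, hO, hloc⟩ := IsLocalRing.exists_factor_valuationRing f
  refine ⟨O, ?_, ?_⟩
  · intro x hx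
    have h1 := hO (algebraMap A (Localization.AtPrime P) ⟨x, hx⟩)
    have h2 : f (algebraMap A (Localization.AtPrime P) ⟨x, hx⟩) = x := by
      simp only [f]
      rw [IsLocalization.lift_eq]
      rfl
    rw [h2] at h1
    exact h1
  · intro hu
    have h1 : (f.codRestrict O.toSubring hO) ((p : ℕ) : Localization.AtPrime P) =
        ((p : ℕ) : O.toSubring) := map_natCast _ _
    have h2 : IsUnit ((p : ℕ) : Localization.AtPrime P) := by
      apply hloc.map_nonunit
      rw [h1]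
      exact hu
    have h3 : algebraMap A (Localization.AtPrime P) ((p : ℕ) : A) =
        ((p : ℕ) : Localization.AtPrime P) := map_natCast _ _
    rw [← h3, IsLocalization.AtPrime.isUnit_to_map_iff (Localization.AtPrime P) P] at h2
    apply h2
    change φ ((p : ℕ) : A) = 0
    rw [map_natCast]
    exact hp

/-- transfer of forms -/
theorem form_transfer (K : Type u) [Field K] (O : ValuationSubring K) (k : Type v) [Field k]
    (ψ : O.toSubring →+* k) (N d t : ℕ) (Y : MvPolynomial (Fin N) K) (hY0 : Y ≠ 0)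
    (hY : Y.IsHomogeneous d) : ∃ Y' : MvPolynomial (Fin N) k, Y' ≠ 0 ∧ Y'.IsHomogeneous d ∧
      ∀ v : Fin N → K, ∀ hv : ∀ i, v i ∈ O.toSubring, Y ∈ mI v ^ t →
        Y' ∈ mI (fun i => ψ ⟨v i, hv i⟩) ^ t := by
  classical
  obtain ⟨m₀, hm₀, hmax⟩ := Finset.exists_max_image Y.support (fun m => O.valuation (coeff m Y))
    (support_nonempty.2 hY0)
  have hc0 : coeff m₀ Y ≠ 0 := mem_support_iff.1 hm₀
  have hmem : ∀ m, (coeff m₀ Y)⁻¹ * coeff m Y ∈ O.toSubring := by
    intro m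
    change (coeff m₀ Y)⁻¹ * coeff m Y ∈ O
    rw [← O.valuation_le_one_iff, map_mul, map_inv₀]
    by_cases hm : m ∈ Y.support
    · have h1 : O.valuation (coeff m₀ Y) ≠ 0 := (Valuation.ne_zero_iff _).2 hc0
      have h2 := mul_le_mul_right (hmax m hm) (O.valuation (coeff m₀ Y))⁻¹
      rwa [inv_mul_cancel₀ h1] at h2
    · rw [notMem_support_iff.1 hm, map_zero, mul_zero]
      exact zero_le_one
  set YA : MvPolynomial (Fin N) O.toSubring :=
    ∑ m ∈ Y.support, monomial m ⟨(coeff m₀ Y)⁻¹ * coeff m Y, hmem m⟩ with hYA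
  have hmap : map O.toSubring.subtype YA = C (coeff m₀ Y)⁻¹ * Y := by
    rw [hYA, map_sum]
    conv_rhs =>
      arg 2
      rw [← support_sum_monomial_coeff Y]
    rw [Finset.mul_sum]
    apply Finset.sum_congr rfl
    intro m _
    rw [map_monomial, C_mul_monomial]
    rfl
  have hcoeff : coeff m₀ YA = 1 := by
    apply Subtype.ext
    have := congrArg (coeff m₀) hmap
    rw [coeff_map, coeff_C_mul, inv_mul_cancel₀ hc0] at this
    exact this
  have hYAh : YA.IsHomogeneous d := by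
    rw [hYA]
    apply IsHomogeneous.sum
    intro m hm
    refine isHomogeneous_monomial _ ?_
    have := hY (mem_support_iff.1 hm)
    rwa [Finsupp.degree_eq_weight_one]
  refine ⟨map ψ YA, ?_, hYAh.map ψ, ?_⟩
  · intro h0
    have h1 := congrArg (coeff m₀) h0
    rw [coeff_map, hcoeff, map_one, coeff_zero] at h1
    exact one_ne_zero h1
  · intro v hv hYv
    have h0 : C (coeff m₀ Y)⁻¹ * Y ∈ mI v ^ t := Ideal.mul_mem_left _ _ hYv
    have h1 : v = fun i => O.toSubring.subtype ⟨v i, hv i⟩ := rfl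
    rw [← hmap, h1, MT.mem_iff] at h0
    rw [MT.mem_iff]
    intro x hx
    have h2 := h0 x hx
    rw [← MT.map_transA, coeff_map] at h2
    have h3 : coeff x (MT.transA (fun i => (⟨v i, hv i⟩ : O.toSubring)) YA) = 0 := by
      apply Subtype.ext
      exact h2
    rw [← MT.map_transA, coeff_map, h3, map_zero]

/-- **The exact form in characteristic zero.** -/
theorem exact_zero (K : Type u) [Field K] [CharZero K] (n a : ℕ) (hn : 1 ≤ n) (ha : 2 ≤ a)
    (Z : Finset (Fin (n + 1) → K)) (hv0 : ∀ v ∈ Z, v ≠ 0)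
    (hlow : LowT (Z : Set (Fin (n + 1) → K)) 1 a)
    (hY : ∀ q : ℕ, 1 ≤ q → ∃ Y : MvPolynomial (Fin (n + 1)) K, Y ≠ 0 ∧
      Y.IsHomogeneous ((a - 1 + n) * (q - 1) + (a - 2)) ∧
      ∀ v ∈ Z, Y ∈ mI v ^ (n * (q - 1))) :
    ∃ F : MvPolynomial (Fin (n + 1)) K, F ≠ 0 ∧ F.IsHomogeneous (a - 1 + n) ∧
      ∀ v ∈ Z, F ∈ mI v ^ n := by
  classical
  by_contra hcon
  push Not at hcon
  have hlow2 : LowT (Z : Set (Fin (n + 1) → K)) n (a + n) := by
    intro G d hG0 hG hGv
    by_contra hlt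
    push Not at hlt
    have h1 : (G * X 0 ^ (a - 1 + n - d)).IsHomogeneous (a - 1 + n) := by
      have := hG.mul ((isHomogeneous_X K 0).pow (a - 1 + n - d))
      rwa [one_mul, Nat.add_sub_cancel' (by omega)] at this
    obtain ⟨v, hv, hv'⟩ := hcon _ (mul_ne_zero hG0 (pow_ne_zero _ (X_ne_zero 0))) h1
    exact hv' (Ideal.mul_mem_right _ _ (hGv v hv))
  obtain ⟨T₁, hT₁⟩ := low_transfer.{u, u} K n 1 a Z hlow
  obtain ⟨T₂, hT₂⟩ := low_transfer.{u, u} K n n (a + n) Z hlow2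
  set T₃ : Finset K := Z.biUnion fun v => (Finset.univ : Finset (Fin (n + 1))).image fun i => v i
    with hT₃
  set T : Finset K := T₁ ∪ (T₂ ∪ (T₃ ∪ T₃.image (fun x => x⁻¹))) with hT
  obtain ⟨p, hp, k₀, _, _, _, -, ⟨φ⟩⟩ := t_RD K T 0
  set A : Subring K := (Algebra.adjoin ℤ (T : Set K)).toSubring with hA
  have hTA : ∀ x ∈ T, x ∈ A := fun x hx => Algebra.subset_adjoin hx
  set ψ₀ : A →+* k₀ := φ.comp (A.subtype.codRestrict (Algebra.adjoin ℤ (T : Set K))
    (fun x => x.2)) with hψ₀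
  obtain ⟨O, hAO, hpO⟩ := exists_val K A k₀ ψ₀ p (CharP.cast_eq_zero k₀ p)
  have hTO : ∀ x ∈ T, x ∈ O := fun x hx => hAO x (hTA x hx)
  have hT₃' : ∀ v ∈ Z, ∀ i, v i ∈ T₃ := by
    intro v hv i
    rw [hT₃]
    exact Finset.mem_biUnion.2 ⟨v, hv, Finset.mem_image_of_mem _ (Finset.mem_univ i)⟩
  have hvO : ∀ v ∈ Z, ∀ i, v i ∈ O.toSubring := by
    intro v hv i
    apply hTO
    rw [hT]
    exact Finset.mem_union_right _ (Finset.mem_union_right _ (Finset.mem_union_left _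
      (hT₃' v hv i)))
  have hvO' : ∀ v ∈ Z, ∀ i, (v i)⁻¹ ∈ O.toSubring := by
    intro v hv i
    apply hTO
    rw [hT]
    exact Finset.mem_union_right _ (Finset.mem_union_right _ (Finset.mem_union_right _
      (Finset.mem_image_of_mem _ (hT₃' v hv i))))
  -- the residue field
  let κ := IsLocalRing.ResidueField O
  have hpκ : ((p : ℕ) : κ) = 0 := by
    have h1 : IsLocalRing.residue O ((p : ℕ) : O) = ((p : ℕ) : κ) := map_natCast _ _
    rw [← h1, IsLocalRing.residue_eq_zero_iff]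
    exact hpO
  have hκ : CharP κ p := (CharP.charP_iff_prime_eq_zero hp.out).2 hpκ
  let k' := AlgebraicClosure κ
  have hk' : CharP k' p := charP_of_injective_algebraMap (algebraMap κ k').injective p
  let ψ : O.toSubring →+* k' := (algebraMap κ k').comp (IsLocalRing.residue O)
  let θ : (Fin (n + 1) → K) → (Fin (n + 1) → k') := fun v =>
    if h : ∀ i, v i ∈ O.toSubring then fun i => ψ ⟨v i, h i⟩ else 0
  have hθ : ∀ v, ∀ hv : v ∈ Z, θ v = fun i => ψ ⟨v i, hvO v hv i⟩ := by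
    intro v hv
    exact dif_pos (hvO v hv)
  have hZ' : ∀ v ∈ Z, ∃ h : ∀ i, v i ∈ O.toSubring, (fun i => ψ ⟨v i, h i⟩) ∈
      ((Z.image θ : Finset (Fin (n + 1) → k')) : Set (Fin (n + 1) → k')) := by
    intro v hv
    refine ⟨hvO v hv, ?_⟩
    rw [← hθ v hv]
    exact Finset.mem_coe.2 (Finset.mem_image_of_mem _ hv)
  have hlow' := hT₁ O.toSubring (by
    intro x hx
    exact hTO x (Finset.mem_union_left _ hx)) k' ψ _ hZ'
  have hlow2' := hT₂ O.toSubring (by
    intro x hx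
    exact hTO x (Finset.mem_union_right _ (Finset.mem_union_left _ hx))) k' ψ _ hZ'
  obtain ⟨F, hF0, hFh, hFv⟩ := exact_char (k := k') p n a hn ha (Z.image θ) (by
    intro w hw h0
    obtain ⟨v, hv, rfl⟩ := Finset.mem_image.1 hw
    rw [hθ v hv] at h0
    obtain ⟨i, hi⟩ : ∃ i, v i ≠ 0 := by
      by_contra hcon
      push Not at hcon
      exact hv0 v hv (funext hcon)
    have e : (⟨v i, hvO v hv i⟩ : O.toSubring) * ⟨(v i)⁻¹, hvO' v hv i⟩ = 1 := by
      apply Subtype.ext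
      exact mul_inv_cancel₀ hi
    have e2 := congrArg ψ e
    rw [map_mul, congrFun h0 i, Pi.zero_apply, zero_mul, map_one] at e2
    exact zero_ne_one e2) hlow' (by
    intro e
    obtain ⟨Y, hY0, hYh, hYv⟩ := hY (p ^ e) (Nat.one_le_iff_ne_zero.2 (pow_pos hp.out.pos e).ne')
    obtain ⟨Y', hY'0, hY'h, hY'v⟩ := form_transfer K O k' ψ (n + 1) _ (n * (p ^ e - 1)) Y hY0 hYh
    refine ⟨Y', hY'0, hY'h, ?_⟩
    intro w hw
    obtain ⟨v, hv, rfl⟩ := Finset.mem_image.1 hw
    rw [hθ v hv]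
    exact hY'v v (hvO v hv) (hYv v hv))
  have := hlow2' F _ hF0 hFh (by
    intro v hv
    exact hFv v (Finset.mem_coe.1 hv))
  omega

end Pool.Agent.W5h91.WL
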